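import Pool.Agent.Lib_helper54.GRS.Hd

/-!
# Additive functions
-/

universe u

set_option linter.unusedSectionVars false

namespace Pool.Agent.Lib_helper54.GRS

variable {k A : Type u} [Field k] [Ring A] [Algebra k A]

/-- finite products -/
def pi {m : ℕ} (M : Fin m → Mo k A) : Mo k A := ⟨(i : Fin m) → M i⟩

/-- functions additive on split sequences -/
structure GoodFn (φ : Mo k A → ℤ) : Prop where
  congr : ∀ {X Y : Mo k A}, (X ≃ₗ[A] Y) → φ X = φ Y
  split : ∀ {X Y Z : Mo k A} {f : X →ₗ[A] Y} {g : Y →ₗ[A] Z}, SES f g → Spl f →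
    φ Y = φ X + φ Z

theorem ses_prod (X Y : Mo k A) :
    SES (Y := (⟨X × Y⟩ : Mo k A)) (LinearMap.inl A X Y) (LinearMap.snd A X Y) :=
  ⟨LinearMap.inl_injective, LinearMap.exact_iff.mpr (LinearMap.ker_snd A X Y),
    LinearMap.snd_surjective⟩

theorem spl_inl (X Y : Mo k A) :
    Spl (Y := (⟨X × Y⟩ : Mo k A)) (LinearMap.inl A X Y) :=
  ⟨LinearMap.fst A X Y, LinearMap.fst_comp_inl A X Y⟩

namespace GoodFn

variable {φ : Mo k A → ℤ}

theorem prod (h : GoodFn φ) (X Y : Mo k A) : φ ⟨X × Y⟩ = φ X + φ Y :=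
  h.split (ses_prod X Y) (spl_inl X Y)

theorem zero (h : GoodFn φ) {X : Mo k A} (hX : Subsingleton X) : φ X = 0 := by
  have h1 : SES (LinearMap.id : X →ₗ[A] X) (LinearMap.id : X →ₗ[A] X) :=
    ⟨fun _ _ h => h, fun y => ⟨fun _ => ⟨y, rfl⟩, fun _ => Subsingleton.elim _ _⟩,
      fun y => ⟨y, rfl⟩⟩
  have h2 := h.split h1 ⟨LinearMap.id, rfl⟩
  omega

theorem pi (h : GoodFn φ) (m : ℕ) : ∀ M : Fin m → Mo k A, φ (GRS.pi M) = ∑ i, φ (M i) := by
  induction m with
  | zero =>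
    intro M
    rw [Fin.sum_univ_zero]
    apply h.zero
    change Subsingleton ((i : Fin 0) → M i)
    infer_instance
  | succ m ih =>
    intro M
    have e : (⟨(M 0) × (GRS.pi fun i : Fin m => M i.succ)⟩ : Mo k A) ≃ₗ[A] GRS.pi M :=
      Fin.consLinearEquiv A (fun i => M i)
    rw [← h.congr e, h.prod, ih, Fin.sum_univ_succ]

theorem dm : GoodFn (fun Y : Mo k A => (GRS.dm Y : ℤ)) where
  congr e := by rw [dm_congr e]
  split h _ := by rw [dm_ses h]; push_cast; ring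

theorem hd (N : Mo k A) : GoodFn (fun Y : Mo k A => (GRS.hd Y N : ℤ)) where
  congr e := by rw [hd_congr e N]
  split h hs := by rw [hd_split h hs N]; push_cast; ring

theorem syN [Module.Finite k A] (h : GoodFn φ) (j : ℕ) : GoodFn (fun Y => φ (SyN j Y)) where
  congr e := h.congr (syEquiv j e)
  split hs hp := h.split (ses_syMapN j hs) (spl_syMapN j hp)

theorem add {φ ψ : Mo k A → ℤ} (h : GoodFn φ) (h' : GoodFn ψ) :
    GoodFn (fun Y => φ Y + ψ Y) where
  congr e := by rw [h.congr e, h'.congr e]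
  split hs hp := by rw [h.split hs hp, h'.split hs hp]; ring

theorem smul (h : GoodFn φ) (c : ℤ) : GoodFn (fun Y => c * φ Y) where
  congr e := by rw [h.congr e]
  split hs hp := by rw [h.split hs hp]; ring

end GoodFn

/-- injective coresolutions whose `n`-th cosyzygy is injective -/
structure Cor (n : ℕ) (Q : Mo k A) where
  /-- the cosyzygies -/
  X : ℕ → Mo k A
  /-- the injective terms -/
  J : ℕ → Mo k A
  /-- the inclusions -/
  f : ∀ s, X s →ₗ[A] J s
  /-- the projections -/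
  g : ∀ s, J s →ₗ[A] X (s + 1)
  ses : ∀ s, SES (f s) (g s)
  inj : ∀ s, Module.Injective A (J s)
  e : X 0 ≃ₗ[A] Q
  injX : Module.Injective A (X n)

/-- the terms of the truncated coresolution -/
def Cor.T {n : ℕ} {Q : Mo k A} (R : Cor n Q) (s : ℕ) : Mo k A :=
  if s < n then R.J s else R.X n

theorem Cor.T_lt {n : ℕ} {Q : Mo k A} (R : Cor n Q) {s : ℕ} (h : s < n) : R.T s = R.J s :=
  if_pos h

theorem Cor.T_n {n : ℕ} {Q : Mo k A} (R : Cor n Q) : R.T n = R.X n :=
  if_neg (Nat.lt_irrefl n)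

theorem Cor.injT {n : ℕ} {Q : Mo k A} (R : Cor n Q) (s : ℕ) : Module.Injective A (R.T s) := by
  by_cases h : s < n
  · rw [R.T_lt h]
    exact R.inj s
  · have : R.T s = R.X n := if_neg h
    rw [this]
    exact R.injX

theorem alt_sum (n : ℕ) (x j : ℕ → ℤ) (h : ∀ s, s < n → j s = x s + x (s + 1)) :
    x 0 = ∑ s ∈ Finset.range n, (-1) ^ s * j s + (-1) ^ n * x n := by
  induction n with
  | zero =>
    rw [Finset.sum_range_zero]
    ring
  | succ n ih =>
    rw [Finset.sum_range_succ, ih (fun s hs => h s (by omega)), h n (by omega)]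
    ring

/-- additivity on a coresolution -/
theorem Cor.sum_eq {n : ℕ} {Q : Mo k A} (R : Cor n Q) {ψ : Mo k A → ℤ} (hψ : GoodFn ψ)
    (h : ∀ s, s < n → ψ (R.J s) = ψ (R.X s) + ψ (R.X (s + 1))) :
    ψ Q = ∑ s ∈ Finset.range (n + 1), (-1) ^ s * ψ (R.T s) := by
  have h1 := alt_sum n (fun s => ψ (R.X s)) (fun s => ψ (R.J s)) h
  rw [hψ.congr R.e] at h1
  rw [h1, Finset.sum_range_succ, R.T_n]
  congr 1
  refine Finset.sum_congr rfl fun s hs => ?_
  rw [R.T_lt (Finset.mem_range.mp hs)]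

section matrix

variable {r : ℕ} (Q I : Fin r → Mo k A) {n : ℕ} (R : ∀ a, Cor n (Q a))
  (m : Fin r → ℕ → ℕ) (σ : ∀ a s, Fin (m a s) → Fin r)
  (e : ∀ a s, (R a).T s ≃ₗ[A] pi (fun i => I (σ a s i)))

/-- the multiplicity matrix -/
def mat (n : ℕ) (m : Fin r → ℕ → ℕ) (σ : ∀ a s, Fin (m a s) → Fin r) :
    Matrix (Fin r) (Fin r) ℤ :=
  fun a b => ∑ s ∈ Finset.range (n + 1), (-1) ^ s *
    ((Finset.univ.filter (fun i : Fin (m a s) => σ a s i = b)).card : ℤ)

include e in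
theorem mat_apply {ψ : Mo k A → ℤ} (hψ : GoodFn ψ)
    (h : ∀ a s, s < n → ψ ((R a).J s) = ψ ((R a).X s) + ψ ((R a).X (s + 1))) (a : Fin r) :
    ψ (Q a) = ∑ b, mat n m σ a b * ψ (I b) := by
  rw [(R a).sum_eq hψ (h a)]
  have h1 : ∀ s, ψ ((R a).T s) = ∑ b, ((Finset.univ.filter
      (fun i : Fin (m a s) => σ a s i = b)).card : ℤ) * ψ (I b) := by
    intro s
    rw [hψ.congr (e a s), hψ.pi]
    rw [← Finset.sum_fiberwise_of_maps_to (s := Finset.univ) (t := Finset.univ)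
      (g := fun i : Fin (m a s) => σ a s i) (fun _ _ => Finset.mem_univ _)]
    refine Finset.sum_congr rfl fun b _ => ?_
    rw [Finset.sum_congr rfl (g := fun _ => ψ (I b))
      (fun i hi => by rw [(Finset.mem_filter.mp hi).2])]
    rw [Finset.sum_const, nsmul_eq_mul]
  simp only [h1, mat, Finset.sum_mul, Finset.mul_sum]
  rw [Finset.sum_comm]
  refine Finset.sum_congr rfl fun b _ => Finset.sum_congr rfl fun s _ => ?_
  ring

end matrix

end Pool.Agent.Lib_helper54.GRS
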