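import Mathlib

/-!
# Bundled finite-dimensional modules
-/

universe u

set_option linter.unusedSectionVars false

namespace Pool.Agent.Lib_helper54.GRS

/-- Bundled f.d. modules over a `k`-algebra. -/
structure Mo (k A : Type u) [Field k] [Ring A] [Algebra k A] where
  /-- the underlying type -/
  C : Type u
  [grp : AddCommGroup C]
  [modk : Module k C]
  [modA : Module A C]
  [tower : IsScalarTower k A C]
  [fin : Module.Finite k C]

attribute [instance] Mo.grp Mo.modk Mo.modA Mo.tower Mo.fin

instance (k A : Type u) [Field k] [Ring A] [Algebra k A] : CoeSort (Mo k A) (Type u) := ⟨Mo.C⟩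

/-- every endomorphism is nilpotent or bijective -/
def Fit (A : Type u) [Ring A] (P : Type u) [AddCommGroup P] [Module A P] : Prop :=
  ∀ φ : Module.End A P, IsNilpotent φ ∨ Function.Bijective φ

/-- what is needed of the theory of Krull and Schmidt -/
def FamStmt : Prop :=
  ∀ (k A : Type u) [Field k] [Ring A] [Algebra k A] [Module.Finite k A],
    ∃ (r : ℕ) (S Q I : Fin r → Mo k A),
      (∀ a, Module.Projective A (Q a)) ∧
      (∀ a, Fit A (Q a)) ∧
      (∀ a, Module.Injective A (I a)) ∧
      (∀ a, ∃ f : Q a →ₗ[A] S a, f ≠ 0) ∧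
      (∀ a b, a ≠ b → ∀ f : Q a →ₗ[A] S b, f = 0) ∧
      (∀ J : Mo k A, Module.Injective A J → ∃ (m : ℕ) (σ : Fin m → Fin r),
        Nonempty (J ≃ₗ[A] ((i : Fin m) → I (σ i))))

end Pool.Agent.Lib_helper54.GRS
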