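import Mathlib

set_option autoImplicit false

/-!
# The definitions of the statement of `RigidSyzygy`
-/

open CategoryTheory

universe u

namespace Pool.Agent.RigidSyzygy

section

variable {A : Type u} [Ring A]

/-- `K` is an `n`-th syzygy of `Y`: there is an exact sequence
`0 → K → P_{n-1} → ⋯ → P_0 → Y → 0` with finitely generated projective modules `P_i`. -/
def IsSyzygy : ℕ → ModuleCat.{u} A → ModuleCat.{u} A → Prop
  | 0, Y, K => Nonempty (K ≃ₗ[A] Y)
  | n + 1, Y, K => ∃ (L P : ModuleCat.{u} A) (f : K →ₗ[A] P) (g : P →ₗ[A] L),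
      IsSyzygy n Y L ∧ Module.Finite A P ∧ Module.Projective A P ∧
        Function.Injective f ∧ Function.Exact f g ∧ Function.Surjective g

variable {Q : ModuleCat.{u} A}

/-- The term of degree `i` of an injective resolution. -/
noncomputable def iTerm (I : InjectiveResolution Q) (i : ℕ) : ModuleCat.{u} A :=
  I.cocomplex.X i

/-- All terms are finitely generated. -/
def IFin (I : InjectiveResolution Q) : Prop := ∀ i, Module.Finite A (iTerm I i)

/-- The terms of degree at most `n` have finite projective dimension, with at most two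
exceptions, which are neighbours. -/
def Near (n : ℕ) (I : InjectiveResolution Q) : Prop :=
  ∃ m, ∀ i, i ≤ n → i ≠ m → i ≠ m + 1 → projectiveDimension (iTerm I i) ≠ ⊤

/-- `Ext^(n+u-v-1)(I^u, K) = 0` for all `u ≥ v + 2`, `u ≤ n`, with some `n`-th syzygy `K` of
`I^v`. -/
def Far (n : ℕ) (I : InjectiveResolution Q) : Prop :=
  ∀ u v, v + 2 ≤ u → u ≤ n → ∃ K : ModuleCat.{u} A, IsSyzygy n (iTerm I v) K ∧
    Subsingleton (Abelian.Ext (iTerm I u) K (n + u - v - 1))

end

end Pool.Agent.RigidSyzygy
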