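import Pool.Agent.Lib_helper54.GRS.Num
import Pool.Agent.Lib_helper54.GSC.B6c

/-!
# Vanishing of Ext
-/

open CategoryTheory CategoryTheory.Abelian

universe u

set_option linter.unusedSectionVars false

namespace Pool.Agent.Lib_helper54.GRS

variable {k A : Type u} [Field k] [Ring A] [Algebra k A]

/-- vanishing of an Ext group -/
def EZ (Y N : Mo k A) (t : ℕ) : Prop :=
  Subsingleton (Ext (ModuleCat.of A Y) (ModuleCat.of A N) t)

/-- the short complex of a short exact sequence -/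
def sc {X Y Z : Mo k A} {f : X →ₗ[A] Y} {g : Y →ₗ[A] Z} (h : SES f g) :
    ShortComplex (ModuleCat.{u} A) :=
  ModuleCat.shortComplexOfCompEqZero f g h.2.1.linearMap_comp_eq_zero

theorem sc_exact {X Y Z : Mo k A} {f : X →ₗ[A] Y} {g : Y →ₗ[A] Z} (h : SES f g) :
    (sc h).ShortExact :=
  ModuleCat.shortComplex_shortExact (sc h) h.2.1 h.1 h.2.2

theorem EZ.mk' {Y N : Mo k A} {t : ℕ}
    (h : ∀ x : Ext (ModuleCat.of A Y) (ModuleCat.of A N) t, x = 0) : EZ Y N t :=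
  ⟨fun a b => by rw [h a, h b]⟩

theorem EZ.eq {Y N : Mo k A} {t : ℕ} (h : EZ Y N t)
    (x y : Ext (ModuleCat.of A Y) (ModuleCat.of A N) t) : x = y := h.elim x y

section
variable {X Y Z : Mo k A} {f : X →ₗ[A] Y} {g : Y →ₗ[A] Z}

/-- `Ext^t(Y,N) = 0` and `Ext^(t+1)(Z,N) = 0` give `Ext^t(X,N) = 0`. -/
theorem EZ.left (h : SES f g) {N : Mo k A} {t : ℕ} (h1 : EZ Y N t) (h2 : EZ Z N (t + 1)) :
    EZ X N t := by
  apply EZ.mk'
  intro x
  obtain ⟨y, rfl⟩ := Ext.contravariant_sequence_exact₁ (sc_exact h) (ModuleCat.of A N) x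
    (add_comm 1 t) (EZ.eq h2 _ _)
  have : y = 0 := h1.eq y 0
  rw [this, Ext.comp_zero]
  rfl

/-- `Ext^t(X,N) = 0` and `Ext^t(Z,N) = 0` give `Ext^t(Y,N) = 0`. -/
theorem EZ.mid (h : SES f g) {N : Mo k A} {t : ℕ} (h1 : EZ X N t) (h2 : EZ Z N t) :
    EZ Y N t := by
  apply EZ.mk'
  intro y
  obtain ⟨z, rfl⟩ := Ext.contravariant_sequence_exact₂ (sc_exact h) (ModuleCat.of A N) y
    (EZ.eq h1 _ _)
  have : z = 0 := h2.eq z 0
  rw [this, Ext.comp_zero]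
  rfl

/-- `Ext^t(X,N) = 0` and `Ext^(t+1)(Y,N) = 0` give `Ext^(t+1)(Z,N) = 0`. -/
theorem EZ.right (h : SES f g) {N : Mo k A} {t : ℕ} (h1 : EZ X N t) (h2 : EZ Y N (t + 1)) :
    EZ Z N (t + 1) := by
  apply EZ.mk'
  intro z
  obtain ⟨x, rfl⟩ := Ext.contravariant_sequence_exact₃ (sc_exact h) (ModuleCat.of A N) z
    (EZ.eq h2 _ _) (add_comm 1 t)
  have : x = 0 := h1.eq x 0
  rw [this, Ext.comp_zero]
  rfl

/-- covariant, the middle -/
theorem EZ.comid (h : SES f g) {W : Mo k A} {t : ℕ} (h1 : EZ W X t) (h2 : EZ W Z t) :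
    EZ W Y t := by
  apply EZ.mk'
  intro y
  obtain ⟨x, rfl⟩ := Ext.covariant_sequence_exact₂ (ModuleCat.of A W) (sc_exact h) y
    (EZ.eq h2 _ _)
  have : x = 0 := h1.eq x 0
  rw [this, Ext.zero_comp]
  rfl

/-- covariant: `Ext^t(W,Z) = 0` and `Ext^(t+1)(W,Y) = 0` give `Ext^(t+1)(W,X) = 0`. -/
theorem EZ.coleft (h : SES f g) {W : Mo k A} {t : ℕ} (h1 : EZ W Z t) (h2 : EZ W Y (t + 1)) :
    EZ W X (t + 1) := by
  apply EZ.mk'
  intro x
  obtain ⟨z, rfl⟩ := Ext.covariant_sequence_exact₁ (ModuleCat.of A W) (sc_exact h) x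
    (EZ.eq h2 _ _) rfl
  have : z = 0 := h1.eq z 0
  rw [this, Ext.zero_comp]
  rfl

/-- covariant: `Ext^t(W,Y) = 0` and `Ext^(t+1)(W,X) = 0` give `Ext^t(W,Z) = 0`. -/
theorem EZ.coright (h : SES f g) {W : Mo k A} {t : ℕ} (h1 : EZ W Y t) (h2 : EZ W X (t + 1)) :
    EZ W Z t := by
  apply EZ.mk'
  intro z
  obtain ⟨y, rfl⟩ := Ext.covariant_sequence_exact₃ (ModuleCat.of A W) (sc_exact h) z
    (rfl : t + 1 = t + 1) (EZ.eq h2 _ _)
  have : y = 0 := h1.eq y 0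
  rw [this, Ext.zero_comp]
  rfl

/-- retracts in the second variable -/
theorem EZ.retract {W : Mo k A} {t : ℕ} (h : EZ W Y t) (i : X →ₗ[A] Y) (r : Y →ₗ[A] X)
    (hr : r ∘ₗ i = LinearMap.id) : EZ W X t := by
  apply EZ.mk'
  intro x
  have h1 : x.comp (Ext.mk₀ (ModuleCat.ofHom i)) (add_zero t) = 0 := EZ.eq h _ _
  have h2 : (x.comp (Ext.mk₀ (ModuleCat.ofHom i)) (add_zero t)).comp
      (Ext.mk₀ (ModuleCat.ofHom r)) (add_zero t) = x := by
    rw [Ext.comp_assoc_of_third_deg_zero, Ext.mk₀_comp_mk₀, ← ModuleCat.ofHom_comp, hr,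
      ModuleCat.ofHom_id, Ext.comp_mk₀_id]
  rw [← h2, h1, Ext.zero_comp]

/-- retracts in the first variable -/
theorem EZ.retract_left {N : Mo k A} {t : ℕ} (h : EZ Y N t) (i : X →ₗ[A] Y) (r : Y →ₗ[A] X)
    (hr : r ∘ₗ i = LinearMap.id) : EZ X N t := by
  apply EZ.mk'
  intro x
  have h1 : (Ext.mk₀ (ModuleCat.ofHom r)).comp x (zero_add t) = 0 := EZ.eq h _ _
  have h2 : (Ext.mk₀ (ModuleCat.ofHom i)).comp
      ((Ext.mk₀ (ModuleCat.ofHom r)).comp x (zero_add t)) (zero_add t) = x := by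
    rw [Ext.mk₀_comp_mk₀_assoc, ← ModuleCat.ofHom_comp, hr,
      ModuleCat.ofHom_id, Ext.mk₀_id_comp]
  rw [← h2, h1, Ext.comp_zero]

theorem EZ.congr_right {W : Mo k A} {t : ℕ} (h : EZ W Y t) (e : Y ≃ₗ[A] X) : EZ W X t :=
  h.retract e.symm.toLinearMap e.toLinearMap (LinearEquiv.comp_symm e)

theorem EZ.congr_left {N : Mo k A} {t : ℕ} (h : EZ Y N t) (e : Y ≃ₗ[A] X) : EZ X N t :=
  h.retract_left e.symm.toLinearMap e.toLinearMap (LinearEquiv.comp_symm e)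

theorem EZ.projective (hY : Module.Projective A Y) (N : Mo k A) (t : ℕ) : EZ Y N (t + 1) := by
  have : Projective (ModuleCat.of A Y) := (IsProjective.iff_projective (R := A) Y).mp hY
  exact EZ.mk' fun x => x.eq_zero_of_projective

theorem EZ.injective (hN : Module.Injective A Y) (W : Mo k A) (t : ℕ) : EZ W Y (t + 1) := by
  have : Injective (ModuleCat.of A Y) := (Module.injective_iff_injective_object A Y).mp hN
  exact EZ.mk' fun x => x.eq_zero_of_injective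

theorem EZ.of_subsingleton_left (hY : Subsingleton Y) (N : Mo k A) (t : ℕ) : EZ Y N t := by
  apply EZ.mk'
  intro x
  have h0 : (𝟙 (ModuleCat.of A Y)) = 0 := by
    ext y
    exact @Subsingleton.elim _ hY _ _
  rw [← Ext.mk₀_id_comp x, h0, Ext.mk₀_zero, Ext.zero_comp]

theorem EZ.of_id {m t : ℕ} (hN : HasInjectiveDimensionLT (ModuleCat.of A Y) m) (h : m ≤ t)
    (W : Mo k A) : EZ W Y t :=
  HasInjectiveDimensionLT.subsingleton (ModuleCat.of A Y) m t h (ModuleCat.of A W)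

theorem EZ.of_pd {m t : ℕ} (hN : HasProjectiveDimensionLT (ModuleCat.of A Y) m) (h : m ≤ t)
    (N : Mo k A) : EZ Y N t :=
  HasProjectiveDimensionLT.subsingleton (ModuleCat.of A Y) m t h (ModuleCat.of A N)

/-- `Ext^1(Z,X) = 0` splits the sequence -/
theorem EZ.spl (h : SES f g) (h1 : EZ Z X 1) : Spl f := by
  obtain ⟨r, hr⟩ := Ext.contravariant_sequence_exact₁ (sc_exact h) (ModuleCat.of A X)
    (Ext.mk₀ (𝟙 (ModuleCat.of A X))) (rfl : 1 + 0 = 1) (EZ.eq h1 _ _)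
  obtain ⟨ρ, rfl⟩ := Ext.homEquiv₀.symm.surjective r
  have hρ : (sc h).f ≫ ρ = 𝟙 (ModuleCat.of A X) := Ext.homEquiv₀.symm.injective (by simpa using hr)
  refine ⟨ρ.hom, ?_⟩
  ext x
  exact congrArg (fun z : ModuleCat.of A X ⟶ ModuleCat.of A X => z.hom x) hρ

end

section
variable [Module.Finite k A]

/-- dimension shifting -/
theorem EZ.sy {Y N : Mo k A} {t : ℕ} (h : EZ Y N (t + 2)) : EZ (Sy Y) N (t + 1) :=
  EZ.left (ses_mu Y) (EZ.projective (projective_fr Y) N t) h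

theorem EZ.syN {N : Mo k A} (j : ℕ) : ∀ {Y : Mo k A} {t : ℕ}, EZ Y N (t + 1 + j) →
    EZ (SyN j Y) N (t + 1) := by
  induction j with
  | zero => intro Y t h; exact h
  | succ j ih =>
    intro Y t h
    exact EZ.sy (ih (t := t + 1) (by rwa [show t + 1 + 1 + j = t + 1 + (j + 1) by omega]))

/-- inverse dimension shifting -/
theorem EZ.of_sy {Y N : Mo k A} {t : ℕ} (h : EZ (Sy Y) N (t + 1)) : EZ Y N (t + 2) :=
  EZ.right (ses_mu Y) h (EZ.projective (projective_fr Y) N (t + 1))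

theorem EZ.of_syN {N : Mo k A} (j : ℕ) : ∀ {Y : Mo k A} {t : ℕ}, EZ (SyN j Y) N (t + 1) →
    EZ Y N (t + 1 + j) := by
  induction j with
  | zero => intro Y t h; exact h
  | succ j ih =>
    intro Y t h
    have h1 : EZ (SyN j Y) N (t + 1 + 1) := EZ.of_sy h
    have h2 := ih h1
    rwa [show t + 1 + (j + 1) = t + 1 + 1 + j by omega]

end

end Pool.Agent.Lib_helper54.GRS
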