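import Pool.Agent.Lib_helper54.GRS.Sch

/-!
# The core theorem
-/

open CategoryTheory MulOpposite Pool.Agent.Lib_helper54.GSC

universe u

set_option linter.unusedSectionVars false

namespace Pool.Agent.Lib_helper54.GRS

/-- indecomposable modules -/
def Indec (A : Type u) [Ring A] (P : Type u) [AddCommGroup P] [Module A P] : Prop :=
  (∃ x : P, x ≠ 0) ∧ ∀ e : P →ₗ[A] P, e ∘ₗ e = e → e = 0 ∨ e = LinearMap.id

theorem indec_of_fit {A : Type u} [Ring A] {P : Type u} [AddCommGroup P] [Module A P]
    (hP : Fit A P) (h : ∃ x : P, x ≠ 0) : Indec A P := by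
  refine ⟨h, fun e he => ?_⟩
  rcases hP e with ⟨m, hm⟩ | hb
  · left
    have h1 : ∀ j : ℕ, (e : Module.End A P) ^ (j + 1) = e := by
      intro j
      induction j with
      | zero => rw [zero_add, pow_one]
      | succ j ih => rw [pow_succ, ih]; exact he
    rcases m with _ | m
    · rw [pow_zero] at hm
      obtain ⟨x, hx⟩ := h
      exact absurd (congrArg (fun z : Module.End A P => z x) hm) hx
    · rw [← h1 m, hm]
  · right
    ext x
    exact hb.1 (congrArg (fun z => z x) he)

variable {k A : Type u} [Field k] [Ring A] [Algebra k A] [Module.Finite k A]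

theorem projective_mid {X Y Z : Mo k A} {f : X →ₗ[A] Y} {g : Y →ₗ[A] Z} (h : SES f g)
    (hX : Module.Projective A X) (hZ : Module.Projective A Z) : Module.Projective A Y := by
  have hs := spl_of_projective h hZ
  obtain ⟨e, _, _⟩ := ((Function.Exact.split_tfae h.2.1 h.1 h.2.2).out 1 2).mp hs
  have h0 : Module.Projective A (X × Z) := inferInstance
  exact Module.Projective.of_equiv e.symm

theorem projective_syN_pi (n m : ℕ) : ∀ M : Fin m → Mo k A,
    (∀ i, Module.Projective A (SyN n (M i))) → Module.Projective A (SyN n (pi M)) := by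
  induction m with
  | zero =>
    intro M _
    have h0 : Subsingleton (pi M) := by
      change Subsingleton ((i : Fin 0) → M i)
      infer_instance
    have h1 : Module.Projective A (pi M) := inferInstance
    exact projective_syN h1 n
  | succ m ih =>
    intro M hM
    have e : (pr (M 0) (pi fun i : Fin m => M i.succ)) ≃ₗ[A] pi M :=
      Fin.consLinearEquiv A (fun i => M i)
    have h1 := projective_mid (ses_syMapN n (ses_prod (M 0) (pi fun i : Fin m => M i.succ)))
      (hM 0) (ih _ (fun i => hM i.succ))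
    have h2 : Module.Projective A (SyN n (pr (M 0) (pi fun i : Fin m => M i.succ))) := h1
    exact Module.Projective.of_equiv (syEquiv n e)

/-- The core theorem, for all injective modules. -/
theorem core (hfam : FamStmt.{u}) {n : ℕ}
    (hA : HasInjectiveDimensionLT (ModuleCat.of A A) (n + 1))
    (h : ∀ Q : Mo k A, Module.Projective A Q → Indec A Q → ∃ R : Cor n Q,
      ∀ v d, v + 2 + d ≤ n → ∃ K : Mo k A, IsSyz n (R.T v) K ∧
        EZ (R.T (v + 2 + d)) K (n + 1 + d))
    (J : Mo k A) (hJ : Module.Injective A J) : Module.Projective A (SyN n J) := by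
  obtain ⟨r, S, Q, I, hQ, hfit, hI, hSQ, hSQ0, hdec⟩ := hfam k A
  have hQi : ∀ a, Indec A (Q a) := by
    intro a
    refine indec_of_fit (hfit a) ?_
    obtain ⟨f, hf⟩ := hSQ a
    by_contra hc
    push Not at hc
    apply hf
    ext x
    rw [hc x, map_zero, map_zero]
  choose R hR using fun a => h (Q a) (hQ a) (hQi a)
  have hR' : ∀ a v d, v + 2 + d ≤ n →
      EZ ((R a).T (v + 2 + d)) (SyN n ((R a).T v)) (n + 1 + d) := by
    intro a v d hvd
    obtain ⟨K, hK, hE⟩ := hR a v d hvd
    exact EZ.stEq hA hK.stEq (by omega) hE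
  choose m σ e using fun a s => hdec ((R a).T s) ((R a).injT s)
  have key := projective_syN_of_split S Q I hQ hSQ hSQ0 R m σ (fun a s => (e a s).some)
    (fun a s hsn => Cor.spl hA (hQ a) (R a) (hR' a) s hsn)
  obtain ⟨m', σ', ⟨e'⟩⟩ := hdec J hJ
  have h1 : Module.Projective A (SyN n (pi fun i => I (σ' i))) :=
    projective_syN_pi n m' _ (fun i => key (σ' i))
  have e'' : J ≃ₗ[A] pi (fun i => I (σ' i)) := e'
  exact Module.Projective.of_equiv (syEquiv n e''.symm)

/-- projective dimension from a projective syzygy -/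
theorem pd_of_syN (n : ℕ) : ∀ Y : Mo k A, Module.Projective A (SyN n Y) →
    HasProjectiveDimensionLT (ModuleCat.of A Y) (n + 1) := by
  have key : ∀ (n j : ℕ) (Y : Mo k A), HasProjectiveDimensionLT (ModuleCat.of A (SyN n Y)) (j + 1) →
      HasProjectiveDimensionLT (ModuleCat.of A Y) (j + n + 1) := by
    intro n
    induction n with
    | zero => intro j Y h; exact h
    | succ n ih =>
      intro j Y h
      have hP : Projective (ModuleCat.of A (Fr (SyN n Y))) :=
        (IsProjective.iff_projective (R := A) (Fr (SyN n Y))).mp (projective_fr _)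
      have h1 : HasProjectiveDimensionLT (ModuleCat.of A (SyN n Y)) (j + 2) :=
        ((sc_exact (ses_mu (SyN n Y))).hasProjectiveDimensionLT_X₃_iff j hP).mpr h
      have h2 := ih (j + 1) Y h1
      rwa [show j + 1 + n + 1 = j + (n + 1) + 1 by omega] at h2
  intro Y h
  have h1 : HasProjectiveDimensionLT (ModuleCat.of A (SyN n Y)) (0 + 1) := by
    rw [zero_add, pd_one_iff]
    exact h
  have h2 := key n 0 Y h1
  rwa [show 0 + n + 1 = n + 1 by omega] at h2

theorem id_right {n : ℕ} (h : ∀ J : Mo k A, Module.Injective A J → Module.Projective A (SyN n J)) :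
    HasInjectiveDimensionLT (ModuleCat.of Aᵐᵒᵖ A) (n + 1) := by
  let θ : Aᵐᵒᵖ ≃ₐ[k] Aᵐᵒᵖ := AlgEquiv.refl
  have hfin : Module.Finite k Aᵐᵒᵖ := Module.Finite.equiv (MulOpposite.opLinearEquiv k (M := A))
  rw [id_iff_pd θ n A]
  let J : Mo k A := ⟨D (flat θ) A⟩
  have hJ : Module.Injective A J := by
    have h1 : Module.Projective Aᵐᵒᵖ A := by
      have e : Aᵐᵒᵖ ≃ₗ[Aᵐᵒᵖ] A :=
        { toFun := unop
          invFun := op
          left_inv := fun _ => rfl
          right_inv := fun _ => rfl
          map_add' := fun _ _ => rfl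
          map_smul' := fun _ _ => rfl }
      exact Module.Projective.of_equiv e
    let v := Module.finBasis k A
    let p : (Fin (Module.finrank k A) → Aᵐᵒᵖ) →ₗ[Aᵐᵒᵖ] A := Fintype.linearCombination Aᵐᵒᵖ v
    have hp : Function.Surjective p := by
      intro m
      have : m ∈ Submodule.span Aᵐᵒᵖ (Set.range v) := by rw [span_eq_top v]; trivial
      obtain ⟨a, ha⟩ := (Submodule.mem_span_range_iff_exists_fun Aᵐᵒᵖ).mp this
      exact ⟨a, by simpa [p, Fintype.linearCombination_apply] using ha⟩
    exact (projective_iff_D_injective (flat θ) p hp).mp h1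
  exact pd_of_syN n J (h J hJ)

end Pool.Agent.Lib_helper54.GRS
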