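import Pool.Agent.Lib_helper54.GRS.Syz

/-!
# Dimensions of Hom spaces
-/

open TensorProduct

universe u

set_option linter.unusedSectionVars false

namespace Pool.Agent.Lib_helper54.GRS

variable {k A : Type u} [Field k] [Ring A] [Algebra k A]

instance finite_hom (X N : Mo k A) : Module.Finite k (X →ₗ[A] N) :=
  Module.Finite.of_injective
    ({ toFun := fun f => f.restrictScalars k
       map_add' := fun _ _ => rfl
       map_smul' := fun _ _ => rfl } : (X →ₗ[A] N) →ₗ[k] (X →ₗ[k] N))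
    (fun f g h => by
      ext x
      exact congrFun (congrArg DFunLike.coe h) x)

/-- the dimension of the Hom space -/
noncomputable def hd (Y N : Mo k A) : ℕ := Module.finrank k (Y →ₗ[A] N)

/-- the dimension -/
noncomputable def dm (Y : Mo k A) : ℕ := Module.finrank k Y

/-- composition with `f` -/
def resMap {X Y : Mo k A} (f : X →ₗ[A] Y) (N : Mo k A) : (Y →ₗ[A] N) →ₗ[k] (X →ₗ[A] N) where
  toFun φ := φ ∘ₗ f
  map_add' _ _ := rfl
  map_smul' _ _ := rfl

theorem resMap_apply {X Y : Mo k A} (f : X →ₗ[A] Y) (N : Mo k A) (φ : Y →ₗ[A] N) :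
    resMap f N φ = φ ∘ₗ f := rfl

theorem resMap_injective {X Y : Mo k A} {f : X →ₗ[A] Y} (hf : Function.Surjective f)
    (N : Mo k A) : Function.Injective (resMap f N) := by
  intro φ ψ h
  ext y
  obtain ⟨x, rfl⟩ := hf y
  exact congrArg (fun z => z x) h

theorem range_resMap {X Y Z : Mo k A} {f : X →ₗ[A] Y} {g : Y →ₗ[A] Z} (h : SES f g)
    (N : Mo k A) : LinearMap.range (resMap g N) = LinearMap.ker (resMap f N) := by
  ext φ
  rw [LinearMap.mem_range, LinearMap.mem_ker]
  constructor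
  · rintro ⟨ψ, rfl⟩
    rw [resMap_apply, resMap_apply, LinearMap.comp_assoc, h.2.1.linearMap_comp_eq_zero,
      LinearMap.comp_zero]
  · intro hφ
    have hk : LinearMap.ker g ≤ LinearMap.ker φ := by
      intro y hy
      obtain ⟨x, rfl⟩ := (h.2.1 y).mp hy
      exact congrArg (fun z => z x) hφ
    refine ⟨(Submodule.liftQ (LinearMap.ker g) φ hk) ∘ₗ
      (g.quotKerEquivOfSurjective h.2.2).symm.toLinearMap, ?_⟩
    ext y
    rw [resMap_apply]
    have hy : (g.quotKerEquivOfSurjective h.2.2).symm (g y) = Submodule.Quotient.mk y := by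
      rw [LinearEquiv.symm_apply_eq]
      rfl
    simp only [LinearMap.comp_apply, LinearEquiv.coe_coe]
    rw [hy]
    rfl

theorem hd_rank {X Y Z : Mo k A} {f : X →ₗ[A] Y} {g : Y →ₗ[A] Z} (h : SES f g) (N : Mo k A) :
    hd Y N = Module.finrank k (LinearMap.range (resMap f N)) + hd Z N := by
  have h1 := LinearMap.finrank_range_add_finrank_ker (resMap f N)
  rw [← range_resMap h N, LinearMap.finrank_range_of_inj (resMap_injective h.2.2 N)] at h1
  exact h1.symm

theorem hd_of_surj {X Y Z : Mo k A} {f : X →ₗ[A] Y} {g : Y →ₗ[A] Z} (h : SES f g) (N : Mo k A)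
    (hs : Function.Surjective (resMap f N)) : hd Y N = hd X N + hd Z N := by
  rw [hd_rank h N, LinearMap.range_eq_top.mpr hs, finrank_top]
  rfl

theorem surj_of_hd {X Y Z : Mo k A} {f : X →ₗ[A] Y} {g : Y →ₗ[A] Z} (h : SES f g) (N : Mo k A)
    (hs : hd Y N = hd X N + hd Z N) : Function.Surjective (resMap f N) := by
  rw [hd_rank h N] at hs
  rw [← LinearMap.range_eq_top]
  apply Submodule.eq_top_of_finrank_eq
  change _ = hd X N
  omega

theorem surj_of_spl {X Y : Mo k A} {f : X →ₗ[A] Y} (h : Spl f) (N : Mo k A) :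
    Function.Surjective (resMap f N) := by
  obtain ⟨r, hr⟩ := h
  intro ψ
  exact ⟨ψ ∘ₗ r, by rw [resMap_apply, LinearMap.comp_assoc, hr, LinearMap.comp_id]⟩

theorem spl_of_surj {X Y : Mo k A} {f : X →ₗ[A] Y} (h : Function.Surjective (resMap f X)) :
    Spl f := by
  obtain ⟨r, hr⟩ := h LinearMap.id
  exact ⟨r, hr⟩

theorem hd_split {X Y Z : Mo k A} {f : X →ₗ[A] Y} {g : Y →ₗ[A] Z} (h : SES f g) (hs : Spl f)
    (N : Mo k A) : hd Y N = hd X N + hd Z N :=
  hd_of_surj h N (surj_of_spl hs N)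

theorem hd_congr {X Y : Mo k A} (e : X ≃ₗ[A] Y) (N : Mo k A) : hd X N = hd Y N := by
  apply le_antisymm
  · exact LinearMap.finrank_le_finrank_of_injective
      (resMap_injective (f := e.symm.toLinearMap) e.symm.surjective N)
  · exact LinearMap.finrank_le_finrank_of_injective
      (resMap_injective (f := e.toLinearMap) e.surjective N)

theorem dm_congr {X Y : Mo k A} (e : X ≃ₗ[A] Y) : dm X = dm Y :=
  (e.restrictScalars k).finrank_eq

theorem dm_ses {X Y Z : Mo k A} {f : X →ₗ[A] Y} {g : Y →ₗ[A] Z} (h : SES f g) :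
    dm Y = dm X + dm Z := by
  let g' : Y →ₗ[k] Z := g.restrictScalars k
  let f' : X →ₗ[k] Y := f.restrictScalars k
  have hg' : Function.Surjective g' := h.2.2
  have hf' : Function.Injective f' := h.1
  have h1 := LinearMap.finrank_range_add_finrank_ker g'
  have h2 : Module.finrank k (LinearMap.range g') = dm Z := by
    rw [LinearMap.range_eq_top.mpr hg', finrank_top]
    rfl
  have h3 : Module.finrank k (LinearMap.ker g') = dm X := by
    have : LinearMap.ker g' = LinearMap.range f' := by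
      ext y
      exact h.2.1 y
    rw [this, LinearMap.finrank_range_of_inj hf']
    rfl
  rw [h2, h3] at h1
  rw [add_comm]
  exact h1.symm

theorem hd_subsingleton {X : Mo k A} (h : Subsingleton X) (N : Mo k A) : hd X N = 0 := by
  have : Subsingleton (X →ₗ[A] N) := ⟨fun f g => by
    ext x
    rw [Subsingleton.elim x 0, map_zero, map_zero]⟩
  exact Module.finrank_zero_of_subsingleton

theorem dm_subsingleton {X : Mo k A} (h : Subsingleton X) : dm X = 0 :=
  Module.finrank_zero_of_subsingleton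

section
variable [Module.Finite k A]

theorem hd_fr (Y N : Mo k A) : hd (Fr Y) N = dm Y * dm N := by
  have e1 : (A →ₗ[A] (Y →ₗ[k] N)) ≃ₗ[k] (A ⊗[k] Y →ₗ[A] N) :=
    TensorProduct.AlgebraTensorModule.lift.equiv k A k A Y N
  have e2 : (A →ₗ[A] (Y →ₗ[k] N)) ≃ₗ[k] (Y →ₗ[k] N) := LinearMap.ringLmapEquivSelf A k _
  have h1 : hd (Fr Y) N = Module.finrank k (A ⊗[k] Y →ₗ[A] N) := rfl
  rw [h1, ← e1.finrank_eq, e2.finrank_eq, Module.finrank_linearMap]
  rfl

theorem dm_fr (Y : Mo k A) : dm (Fr Y) = Module.finrank k A * dm Y :=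
  Module.finrank_tensorProduct

theorem dm_sy (Y : Mo k A) : (dm (Sy Y) : ℤ) = ((Module.finrank k A : ℤ) - 1) * dm Y := by
  have h := dm_ses (ses_mu Y)
  rw [dm_fr] at h
  have h' : ((Module.finrank k A * dm Y : ℕ) : ℤ) = ((dm (Sy Y) + dm Y : ℕ) : ℤ) := by rw [h]
  push_cast at h'
  linarith

theorem dm_syN (j : ℕ) (Y : Mo k A) :
    (dm (SyN j Y) : ℤ) = ((Module.finrank k A : ℤ) - 1) ^ j * dm Y := by
  induction j with
  | zero => rw [pow_zero, one_mul]; rfl
  | succ j ih =>
    change (dm (Sy (SyN j Y)) : ℤ) = _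
    rw [dm_sy, ih]
    ring

end

end Pool.Agent.Lib_helper54.GRS
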