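import Pool.Agent.Lib_helper54.GRS.Num

/-!
# Indecomposable projective modules
-/

open Filter

universe u

set_option linter.unusedSectionVars false

namespace Pool.Agent.Lib_helper54.GRS

variable {k B : Type u} [Field k] [Ring B] [Algebra k B]

theorem noeth (P : Mo k B) : IsNoetherian B P := isNoetherian_of_tower k inferInstance

theorem artin (P : Mo k B) : IsArtinian B P := isArtinian_of_tower k inferInstance

/-- a submodule as a bundled module -/
def sub (P : Mo k B) (N : Submodule B P) : Mo k B where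
  C := N
  fin := Module.Finite.of_injective (N.subtype.restrictScalars k) N.injective_subtype

/-- a quotient as a bundled module -/
def quo (P : Mo k B) (N : Submodule B P) : Mo k B where
  C := P ⧸ N
  tower := inferInstance
  fin := Module.Finite.of_surjective (N.mkQ.restrictScalars k) N.mkQ_surjective

theorem dm_sub_le (P : Mo k B) (N : Submodule B P) : dm (sub P N) ≤ dm P :=
  LinearMap.finrank_le_finrank_of_injective (f := N.subtype.restrictScalars k)
    N.injective_subtype

theorem eq_top_of_dm (P : Mo k B) (N : Submodule B P) (h : dm P ≤ dm (sub P N)) : N = ⊤ := by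
  have h1 : N.restrictScalars k = ⊤ := by
    apply Submodule.eq_top_of_finrank_eq
    exact le_antisymm (dm_sub_le P N) h
  rw [eq_top_iff]
  intro x _
  have h2 : x ∈ N.restrictScalars k := by rw [h1]; trivial
  exact h2

theorem projective_sub {P : Mo k B} (hP : Module.Projective B P) {K R : Submodule B P}
    (h : IsCompl K R) : Module.Projective B (sub P K) :=
  Module.Projective.of_split (P := K) K.subtype (K.projectionOnto R h)
    (Submodule.projectionOnto_comp_subtype h)

/-- (1) a simple module has a projective cover all endomorphisms of which are nilpotent or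
bijective -/
theorem exists_min [Module.Finite k B] (S : Mo k B) [hS : IsSimpleModule B S] :
    ∃ P : Mo k B, Module.Projective B P ∧ Fit B P ∧ ∃ f : P →ₗ[B] S, f ≠ 0 := by
  classical
  have hne : ∃ n : ℕ, ∃ P : Mo k B, dm P = n ∧ Module.Projective B P ∧ ∃ f : P →ₗ[B] S, f ≠ 0 := by
    refine ⟨_, Fr S, rfl, projective_fr S, mu S, ?_⟩
    intro h0
    have hnt : Nontrivial S := IsSimpleModule.nontrivial B S
    obtain ⟨x, hx⟩ := exists_ne (0 : S)
    obtain ⟨y, rfl⟩ := mu_surjective S x
    exact hx (by rw [h0]; rfl)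
  obtain ⟨P, hdm, hP, f, hf⟩ := Nat.find_spec hne
  have hmin : ∀ P' : Mo k B, Module.Projective B P' → (∃ f : P' →ₗ[B] S, f ≠ 0) →
      dm P ≤ dm P' := by
    intro P' hP' hf'
    rw [hdm]
    exact Nat.find_min' hne ⟨P', rfl, hP', hf'⟩
  refine ⟨P, hP, ?_, f, hf⟩
  intro φ
  have := noeth P
  have := artin P
  obtain ⟨n, hc, hn⟩ := ((LinearMap.eventually_isCompl_ker_pow_range_pow φ).and
    (eventually_ge_atTop 1)).exists
  have hmin' : ∀ K R : Submodule B P, IsCompl K R → f ∘ₗ K.subtype ≠ 0 → K = ⊤ := by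
    intro K R hKR hfK
    exact eq_top_of_dm P K (hmin (sub P K) (projective_sub hP hKR) ⟨f ∘ₗ K.subtype, hfK⟩)
  by_cases h1 : f ∘ₗ (LinearMap.ker (φ ^ n)).subtype ≠ 0
  · left
    have h2 := hmin' _ _ hc h1
    exact ⟨n, LinearMap.ker_eq_top.mp h2⟩
  · right
    have h3 : f ∘ₗ (LinearMap.range (φ ^ n)).subtype ≠ 0 := by
      intro h4
      push Not at h1
      apply hf
      ext x
      have hx : x ∈ LinearMap.ker (φ ^ n) ⊔ LinearMap.range (φ ^ n) := by
        rw [hc.sup_eq_top]; trivial
      obtain ⟨y, hy, z, hz, rfl⟩ := Submodule.mem_sup.mp hx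
      rw [map_add]
      have hy' : f y = 0 := congrArg (fun w => w ⟨y, hy⟩) h1
      have hz' : f z = 0 := congrArg (fun w => w ⟨z, hz⟩) h4
      rw [hy', hz', add_zero]
      rfl
    have h2 := hmin' _ _ hc.symm h3
    have h5 : LinearMap.ker (φ ^ n) = ⊥ := by
      have h6 := hc.inf_eq_bot
      rwa [h2, inf_top_eq] at h6
    obtain ⟨m, rfl⟩ : ∃ m, n = m + 1 := ⟨n - 1, by omega⟩
    constructor
    · rw [← LinearMap.ker_eq_bot, eq_bot_iff]
      intro x hx
      rw [← h5, LinearMap.mem_ker, pow_succ]
      rw [LinearMap.mem_ker] at hx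
      change (φ ^ m) (φ x) = 0
      rw [hx, map_zero]
    · intro y
      obtain ⟨x, hx⟩ := LinearMap.range_eq_top.mp h2 y
      refine ⟨(φ ^ m) x, ?_⟩
      rw [← hx, pow_succ']
      rfl

/-- endomorphisms over a nonzero map are bijective -/
theorem bij_of_over {P S : Mo k B} (hfit : Fit B P) {π : P →ₗ[B] S} (hπ : π ≠ 0)
    {φ : Module.End B P} (h : π ∘ₗ φ = π) : Function.Bijective φ := by
  rcases hfit φ with ⟨m, hm⟩ | hb
  · exfalso
    apply hπ
    have h1 : ∀ j : ℕ, π ∘ₗ (φ ^ j : Module.End B P) = π := by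
      intro j
      induction j with
      | zero => rw [pow_zero]; rfl
      | succ j ih =>
        rw [pow_succ']
        change π ∘ₗ (φ ∘ₗ (φ ^ j : Module.End B P)) = π
        rw [← LinearMap.comp_assoc, h, ih]
    rw [← h1 m, hm, LinearMap.comp_zero]
  · exact hb

theorem split_equiv {X Y Z : Mo k B} {f : X →ₗ[B] Y} {g : Y →ₗ[B] Z} (h : SES f g)
    (hs : Spl f) : Nonempty (Y ≃ₗ[B] (⟨X × Z⟩ : Mo k B)) := by
  obtain ⟨e', _, _⟩ := ((Function.Exact.split_tfae h.2.1 h.1 h.2.2).out 1 2).mp hs
  exact ⟨e'⟩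

/-- (2) a `Fit` projective module over a simple module is a summand of every projective module
over this simple module -/
theorem exists_summand {P P' S : Mo k B} (hP : Module.Projective B P) (hfit : Fit B P)
    (hP' : Module.Projective B P') (hS : IsSimpleModule B S)
    {π : P →ₗ[B] S} (hπ : π ≠ 0) {π' : P' →ₗ[B] S} (hπ' : π' ≠ 0) :
    ∃ P'' : Mo k B, Module.Projective B P'' ∧
      Nonempty (P' ≃ₗ[B] (⟨P × P''⟩ : Mo k B)) := by
  have hs : Function.Surjective π := LinearMap.surjective_of_ne_zero hπ
  have hs' : Function.Surjective π' := LinearMap.surjective_of_ne_zero hπ'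
  obtain ⟨α, hα⟩ := Module.projective_lifting_property π' π hs'
  obtain ⟨β, hβ⟩ := Module.projective_lifting_property π π' hs
  have hb : Function.Bijective (β ∘ₗ α : Module.End B P) := by
    apply bij_of_over hfit hπ
    rw [← LinearMap.comp_assoc, hβ, hα]
  let e := LinearEquiv.ofBijective (β ∘ₗ α) hb
  have hspl : Spl (X := P) (Y := P') α := by
    refine ⟨e.symm.toLinearMap ∘ₗ β, ?_⟩
    ext x
    exact e.symm_apply_apply x
  have hinj : Function.Injective α := by
    intro x y hxy
    apply hb.1
    change β (α x) = β (α y)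
    rw [hxy]
  have hex : Function.Exact α (LinearMap.range α).mkQ :=
    LinearMap.exact_iff.mpr (Submodule.ker_mkQ _)
  have hses : SES (X := P) (Y := P') (Z := quo P' (LinearMap.range α)) α
      (LinearMap.range α).mkQ :=
    ⟨hinj, hex, Submodule.mkQ_surjective _⟩
  exact ⟨quo P' (LinearMap.range α), projective_of_spl_right hses hspl hP',
    split_equiv hses hspl⟩

/-- (3) Hom to other simple modules vanishes -/
theorem hom_zero {P S T : Mo k B} (hP : Module.Projective B P) (hfit : Fit B P)
    (hS : IsSimpleModule B S) (hT : IsSimpleModule B T) {π : P →ₗ[B] S} (hπ : π ≠ 0)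
    (hne : ¬ Nonempty (T ≃ₗ[B] S)) (f : P →ₗ[B] T) : f = 0 := by
  by_contra hf
  have hfs : Function.Surjective f := LinearMap.surjective_of_ne_zero hf
  -- the kernel of `f` is not contained in the kernel of `π`
  have h1 : π ∘ₗ (LinearMap.ker f).subtype ≠ 0 := by
    intro h0
    have hk : LinearMap.ker f ≤ LinearMap.ker π := by
      intro x hx
      exact congrArg (fun w => w ⟨x, hx⟩) h0
    let g : T →ₗ[B] S := (Submodule.liftQ (LinearMap.ker f) π hk) ∘ₗ
      (f.quotKerEquivOfSurjective hfs).symm.toLinearMap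
    have hg : g ∘ₗ f = π := by
      ext x
      have hy : (f.quotKerEquivOfSurjective hfs).symm (f x) = Submodule.Quotient.mk x := by
        rw [LinearEquiv.symm_apply_eq]
        rfl
      change (Submodule.liftQ (LinearMap.ker f) π hk)
        ((f.quotKerEquivOfSurjective hfs).symm (f x)) = π x
      rw [hy]
      rfl
    have hg0 : g ≠ 0 := by
      intro h0
      rw [h0, LinearMap.zero_comp] at hg
      exact hπ hg.symm
    exact hne ⟨LinearEquiv.ofBijective g (LinearMap.bijective_of_ne_zero hg0)⟩
  have h2 : Function.Surjective (π ∘ₗ (LinearMap.ker f).subtype) :=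
    LinearMap.surjective_of_ne_zero h1
  have h3 : Function.Surjective (f.prod π) := by
    rintro ⟨t, s⟩
    obtain ⟨x, rfl⟩ := hfs t
    obtain ⟨y, hy⟩ := h2 (s - π x)
    refine ⟨x + y, ?_⟩
    have hy0 : f (y : P) = 0 := y.2
    have hy1 : π (y : P) = s - π x := hy
    change (f (x + (y : P)), π (x + (y : P))) = (f x, s)
    rw [map_add, map_add, hy0, hy1, add_zero, add_sub_cancel]
  obtain ⟨φ, hφ⟩ := Module.projective_lifting_property (f.prod π) (f.prod 0) h3
  have h4 : f ∘ₗ φ = f := by
    ext x
    exact (Prod.ext_iff.mp (congrArg (fun w => w x) hφ)).1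
  have h5 : π ∘ₗ φ = 0 := by
    ext x
    exact (Prod.ext_iff.mp (congrArg (fun w => w x) hφ)).2
  have h6 := bij_of_over (φ := φ) hfit hf h4
  apply hπ
  ext x
  obtain ⟨y, rfl⟩ := h6.2 x
  exact congrArg (fun w => w y) h5

end Pool.Agent.Lib_helper54.GRS
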