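import Pool.Agent.Lib_helper54.GRS.Ks

/-!
# Decomposition of projective modules
-/

universe u

set_option linter.unusedSectionVars false

namespace Pool.Agent.Lib_helper54.GRS

variable {k B : Type u} [Field k] [Ring B] [Algebra k B]

theorem exists_simple_quot (P : Mo k B) (h : Nontrivial P) :
    ∃ S : Mo k B, IsSimpleModule B S ∧ ∃ π : P →ₗ[B] S, π ≠ 0 := by
  have := noeth P
  obtain ⟨N, hN, _⟩ := (eq_top_or_exists_le_coatom (⊥ : Submodule B P)).resolve_left
    (fun h0 => by
      obtain ⟨x, hx⟩ := exists_ne (0 : P)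
      have : x ∈ (⊥ : Submodule B P) := by rw [h0]; trivial
      exact hx ((Submodule.mem_bot B).mp this))
  refine ⟨quo P N, isSimpleModule_iff_isCoatom.mpr hN, N.mkQ, ?_⟩
  intro h0
  apply hN.1
  rw [eq_top_iff]
  intro x _
  rw [← N.ker_mkQ]
  exact congrArg (fun w => w x) h0

theorem nontrivial_of_map {P S : Mo k B} {π : P →ₗ[B] S} (h : π ≠ 0) : Nontrivial P := by
  by_contra hc
  rw [not_nontrivial_iff_subsingleton] at hc
  apply h
  ext x
  rw [Subsingleton.elim x 0, map_zero, map_zero]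

theorem dm_pos {P : Mo k B} (h : Nontrivial P) : 0 < dm P := Module.finrank_pos

theorem decomp_aux (good : Mo k B → Prop)
    (hgood : ∀ P' : Mo k B, Module.Projective B P' → Nontrivial P' →
      ∃ P P'' : Mo k B, good P ∧ Nontrivial P ∧ Module.Projective B P'' ∧
        Nonempty (P' ≃ₗ[B] (⟨P × P''⟩ : Mo k B))) (n : ℕ) :
    ∀ P' : Mo k B, Module.Projective B P' → dm P' ≤ n →
      ∃ (m : ℕ) (M : Fin m → Mo k B), (∀ i, good (M i)) ∧ Nonempty (P' ≃ₗ[B] pi M) := by
  induction n with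
  | zero =>
    intro P' _ h
    have hs : Subsingleton P' := by
      by_contra hc
      rw [not_subsingleton_iff_nontrivial] at hc
      have := dm_pos hc
      omega
    refine ⟨0, fun i => i.elim0, fun i => i.elim0, ⟨?_⟩⟩
    have hs2 : Subsingleton (pi (fun i : Fin 0 => (i.elim0 : Mo k B))) := by
      change Subsingleton ((i : Fin 0) → _)
      infer_instance
    exact LinearEquiv.ofBijective 0 ⟨fun x y _ => Subsingleton.elim x y,
      fun y => ⟨0, Subsingleton.elim _ _⟩⟩
  | succ n ih =>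
    intro P' hP' h
    by_cases hs : Subsingleton P'
    · refine ⟨0, fun i => i.elim0, fun i => i.elim0, ⟨?_⟩⟩
      have hs2 : Subsingleton (pi (fun i : Fin 0 => (i.elim0 : Mo k B))) := by
        change Subsingleton ((i : Fin 0) → _)
        infer_instance
      exact LinearEquiv.ofBijective 0 ⟨fun x y _ => Subsingleton.elim x y,
        fun y => ⟨0, Subsingleton.elim _ _⟩⟩
    · rw [not_subsingleton_iff_nontrivial] at hs
      obtain ⟨P, P'', hg, hnt, hP'', ⟨e⟩⟩ := hgood P' hP' hs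
      have h1 : dm P' = dm P + dm P'' := by
        rw [dm_congr e]
        exact dm_ses (ses_prod P P'')
      have h2 := dm_pos hnt
      obtain ⟨m, M, hM, ⟨e'⟩⟩ := ih P'' hP'' (by omega)
      refine ⟨m + 1, Fin.cons P M, ?_, ⟨?_⟩⟩
      · intro i
        refine Fin.cases ?_ (fun j => ?_) i
        · exact hg
        · exact hM j
      · have e1 : (P × P'') ≃ₗ[B] (P × ((i : Fin m) → M i)) :=
          LinearEquiv.prodCongr (LinearEquiv.refl B P) e'
        have e2 : (P × ((i : Fin m) → M i)) ≃ₗ[B]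
            ((i : Fin (m + 1)) → (Fin.cons P M : Fin (m + 1) → Mo k B) i) :=
          Fin.consLinearEquiv B (fun i => ((Fin.cons P M : Fin (m + 1) → Mo k B) i : Type u))
        exact (LinearEquiv.trans (M₂ := P × P'') e e1).trans e2

section
variable [Module.Finite k B]

/-- finitely many simple modules -/
theorem exists_simples (k B : Type u) [Field k] [Ring B] [Algebra k B] [Module.Finite k B] :
    ∃ (m : ℕ) (T : Fin m → Mo k B), (∀ i, IsSimpleModule B (T i)) ∧
      ∀ S : Mo k B, IsSimpleModule B S → ∃ i, Nonempty (S ≃ₗ[B] T i) := by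
  obtain ⟨m, M, hM, ⟨e⟩⟩ := decomp_aux (k := k) (B := B)
    (fun P => Module.Projective B P ∧ Fit B P ∧ ∃ T : Mo k B, IsSimpleModule B T ∧
      ∃ π : P →ₗ[B] T, π ≠ 0)
    (by
      intro P' hP' hnt
      obtain ⟨T, hT, π', hπ'⟩ := exists_simple_quot P' hnt
      obtain ⟨P, hP, hfit, π, hπ⟩ := exists_min (k := k) T
      obtain ⟨P'', hP'', he⟩ := exists_summand hP hfit hP' hT hπ hπ'
      exact ⟨P, P'', ⟨hP, hfit, T, hT, π, hπ⟩, nontrivial_of_map hπ, hP'', he⟩)
    _ (⟨B⟩ : Mo k B) (inferInstanceAs (Module.Projective B B)) le_rfl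
  choose hP hfit T hT π hπ using hM
  refine ⟨m, T, hT, ?_⟩
  intro S hS
  by_contra hc
  push Not at hc
  have hnt : Nontrivial S := IsSimpleModule.nontrivial B S
  obtain ⟨x, hx⟩ := exists_ne (0 : S)
  have h0 : ∀ i, ∀ f : M i →ₗ[B] S, f = 0 := by
    intro i f
    refine hom_zero (hP i) (hfit i) (hT i) hS (hπ i) ?_ f
    rw [not_nonempty_iff]
    exact hc i
  have h1 : (LinearMap.toSpanSingleton B S x) ∘ₗ e.symm.toLinearMap = 0 := by
    apply LinearMap.pi_ext'
    intro i
    exact (h0 i _).trans (LinearMap.zero_comp _).symm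
  apply hx
  have h2 : (LinearMap.toSpanSingleton B S x) (e.symm (e (1 : B))) = 0 :=
    congrArg (fun w => w (e (1 : B))) h1
  rw [LinearEquiv.symm_apply_apply, LinearMap.toSpanSingleton_apply, one_smul] at h2
  exact h2

/-- representatives of the simple modules -/
theorem exists_family (k B : Type u) [Field k] [Ring B] [Algebra k B] [Module.Finite k B] :
    ∃ (r : ℕ) (S : Fin r → Mo k B), (∀ a, IsSimpleModule B (S a)) ∧
      (∀ a b, Nonempty (S a ≃ₗ[B] S b) → a = b) ∧
      ∀ T : Mo k B, IsSimpleModule B T → ∃ a, Nonempty (T ≃ₗ[B] S a) := by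
  classical
  obtain ⟨m, T, hT, hc⟩ := exists_simples k B
  let st : Setoid (Fin m) :=
    { r := fun i j => Nonempty (T i ≃ₗ[B] T j)
      iseqv :=
        { refl := fun i => ⟨LinearEquiv.refl B _⟩
          symm := fun ⟨e⟩ => ⟨e.symm⟩
          trans := fun ⟨e⟩ ⟨e'⟩ => ⟨e.trans e'⟩ } }
  let ι := Quotient st
  let _ : Fintype ι := Fintype.ofFinite ι
  let ε : Fin (Fintype.card ι) ≃ ι := (Fintype.equivFin ι).symm
  refine ⟨Fintype.card ι, fun a => T (ε a).out, fun a => hT _, ?_, ?_⟩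
  · intro a b h
    apply ε.injective
    rw [← Quotient.out_eq (ε a), ← Quotient.out_eq (ε b)]
    exact Quotient.sound h
  · intro S hS
    obtain ⟨i, ⟨e⟩⟩ := hc S hS
    refine ⟨ε.symm (Quotient.mk st i), ?_⟩
    change Nonempty (S ≃ₗ[B] T (ε (ε.symm (Quotient.mk st i))).out)
    rw [Equiv.apply_symm_apply]
    have h1 : Nonempty (T (Quotient.mk st i).out ≃ₗ[B] T i) :=
      Quotient.exact (Quotient.out_eq (Quotient.mk st i))
    exact ⟨e.trans h1.some.symm⟩

/-- decomposition of the projective modules -/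
theorem exists_projectives {r : ℕ} (S : Fin r → Mo k B) (hS : ∀ a, IsSimpleModule B (S a))
    (hc : ∀ T : Mo k B, IsSimpleModule B T → ∃ a, Nonempty (T ≃ₗ[B] S a)) :
    ∃ Q : Fin r → Mo k B, (∀ a, Module.Projective B (Q a)) ∧ (∀ a, Fit B (Q a)) ∧
      (∀ a, ∃ f : Q a →ₗ[B] S a, f ≠ 0) ∧
      ∀ P : Mo k B, Module.Projective B P → ∃ (m : ℕ) (σ : Fin m → Fin r),
        Nonempty (P ≃ₗ[B] pi (fun i => Q (σ i))) := by
  choose Q hQ hfit π hπ using fun a => (have := hS a; exists_min (k := k) (S a))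
  refine ⟨Q, hQ, hfit, fun a => ⟨π a, hπ a⟩, ?_⟩
  intro P hP
  obtain ⟨m, M, hM, ⟨e⟩⟩ := decomp_aux (k := k) (B := B) (fun P => ∃ a, P = Q a)
    (by
      intro P' hP' hnt
      obtain ⟨T, hT, π', hπ'⟩ := exists_simple_quot P' hnt
      obtain ⟨a, ⟨e⟩⟩ := hc T hT
      have h1 : e.toLinearMap ∘ₗ π' ≠ 0 := by
        intro h0
        apply hπ'
        ext x
        apply e.injective
        rw [LinearMap.zero_apply, map_zero]
        exact congrArg (fun w => w x) h0
      obtain ⟨P'', hP'', he⟩ := exists_summand (hQ a) (hfit a) hP' (hS a) (hπ a) h1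
      exact ⟨Q a, P'', ⟨a, rfl⟩, nontrivial_of_map (hπ a), hP'', he⟩)
    _ P hP le_rfl
  choose σ hσ using hM
  refine ⟨m, σ, ?_⟩
  have h2 : M = fun i => Q (σ i) := funext hσ
  rw [h2] at e
  exact ⟨e⟩

end

end Pool.Agent.Lib_helper54.GRS
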