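import Pool.Agent.Lib_helper54.GRS.Ks2
import Pool.Agent.Lib_helper54.GSC.B6c

/-!
# Duality, and the families
-/

open MulOpposite Pool.Agent.Lib_helper54.GSC

universe u

set_option linter.unusedSectionVars false

namespace Pool.Agent.Lib_helper54.GRS

variable {k A B : Type u} [Field k] [Ring A] [Algebra k A] [Ring B] [Algebra k B]
  (θ : A ≃ₐ[k] Bᵐᵒᵖ)

/-- the dual -/
def dL (N : Mo k B) : Mo k A := ⟨D θ N⟩

theorem dm_dL (N : Mo k B) : dm (dL θ N) = dm N := finrank_D θ N

/-- double dual -/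
noncomputable def dd (M : Mo k A) : M ≃ₗ[A] dL θ (dL (flat θ) M) := doubleDual θ M

theorem flat_flat : flat (flat θ) = θ := by
  ext a
  rfl

theorem dd' (N : Mo k B) : Nonempty (N ≃ₗ[B] dL (flat θ) (dL θ N)) := by
  have e := dd (flat θ) N
  rw [flat_flat] at e
  exact ⟨e⟩

theorem dL_congr {N N' : Mo k B} (e : N ≃ₗ[B] N') : Nonempty (dL θ N ≃ₗ[A] dL θ N') :=
  ⟨LinearEquiv.ofBijective (Dmap θ e.symm.toLinearMap)
    ⟨Dmap_injective θ e.symm.surjective, Dmap_surjective θ e.symm.injective⟩⟩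

theorem simple_dL {N : Mo k B} (hN : IsSimpleModule B N) : IsSimpleModule A (dL θ N) := by
  have hnt : Nontrivial N := IsSimpleModule.nontrivial B N
  have hpos : 0 < dm (dL θ N) := by rw [dm_dL]; exact dm_pos hnt
  have hnt' : Nontrivial (dL θ N) := Module.finrank_pos_iff.mp hpos
  obtain ⟨e⟩ := dd' θ N
  rw [isSimpleModule_iff]
  refine { exists_pair_ne := ⟨⊥, ⊤, bot_ne_top⟩, eq_bot_or_eq_top := fun X => ?_ }
  let q : dL θ N →ₗ[A] quo (dL θ N) X := X.mkQ
  have hq : Function.Surjective q := X.mkQ_surjective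
  have hD : Function.Injective (Dmap (flat θ) q) := Dmap_injective (flat θ) hq
  let g : dL (flat θ) (quo (dL θ N) X) →ₗ[B] N := e.symm.toLinearMap ∘ₗ Dmap (flat θ) q
  have hg : Function.Injective g := e.symm.injective.comp hD
  rcases g.surjective_or_eq_zero with h1 | h1
  · left
    have h2 : dm (dL (flat θ) (quo (dL θ N) X)) = dm N :=
      dm_congr (LinearEquiv.ofBijective g ⟨hg, h1⟩)
    rw [dm_dL] at h2
    have h3 : Function.Injective (q.restrictScalars k) :=
      (LinearMap.injective_iff_surjective_of_finrank_eq_finrank (by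
        change dm (dL θ N) = dm (quo (dL θ N) X)
        rw [dm_dL, h2])).mpr hq
    rw [← X.ker_mkQ, LinearMap.ker_eq_bot]
    exact h3
  · right
    have h2 : Subsingleton (dL (flat θ) (quo (dL θ N) X)) := by
      refine ⟨fun x y => hg ?_⟩
      rw [h1]
      rfl
    have h3 : dm (quo (dL θ N) X) = 0 := by
      rw [← dm_dL (flat θ)]
      exact dm_subsingleton h2
    have h4 : Subsingleton (quo (dL θ N) X) := Module.finrank_zero_iff.mp h3
    rw [eq_top_iff]
    intro x _
    rw [← X.ker_mkQ, LinearMap.mem_ker]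
    exact h4.elim _ _

theorem dL_pi {m : ℕ} (M : Fin m → Mo k B) :
    Nonempty (dL θ (pi M) ≃ₗ[A] pi (fun i => dL θ (M i))) := by
  let Φ : dL θ (pi M) →ₗ[A] ((i : Fin m) → dL θ (M i)) :=
    LinearMap.pi (fun i => Dmap θ (LinearMap.single B (fun i => (M i : Type u)) i))
  refine ⟨LinearEquiv.ofBijective Φ ⟨?_, ?_⟩⟩
  · intro f f' h
    have h1 : ∀ i, (show (pi M : Type u) →ₗ[k] k from f) ∘ₗ
        LinearMap.single k (fun i => (M i : Type u)) i =
        (show (pi M : Type u) →ₗ[k] k from f') ∘ₗ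
          LinearMap.single k (fun i => (M i : Type u)) i := fun i => congrFun h i
    exact LinearMap.pi_ext' h1
  · intro F
    refine ⟨(LinearMap.lsum k (fun i => (M i : Type u)) k
      (fun i => (show (M i : Type u) →ₗ[k] k from F i)) :), ?_⟩
    funext i
    refine D_ext (θ := θ) ?_
    intro x
    exact LinearMap.lsum_piSingle (R := k) (φ := fun i => (M i : Type u)) k
      (fun i => (show (M i : Type u) →ₗ[k] k from F i)) i x

theorem exists_free_cover [Module.Finite k B] (N : Mo k B) :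
    ∃ p : (Fin (Module.finrank k N) → B) →ₗ[B] N, Function.Surjective p := by
  let v := Module.finBasis k N
  refine ⟨Fintype.linearCombination B v, ?_⟩
  intro m
  have : m ∈ Submodule.span B (Set.range v) := by rw [span_eq_top v]; trivial
  obtain ⟨a, ha⟩ := (Submodule.mem_span_range_iff_exists_fun B).mp this
  exact ⟨a, by simpa [Fintype.linearCombination_apply] using ha⟩

theorem injective_dL [Module.Finite k B] {N : Mo k B} (hN : Module.Projective B N) :
    Module.Injective A (dL θ N) := by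
  obtain ⟨p, hp⟩ := exists_free_cover N
  exact (projective_iff_D_injective θ p hp).mp hN

theorem injective_congr {M N : Mo k A} (e : M ≃ₗ[A] N) (h : Module.Injective A M) :
    Module.Injective A N := by
  rw [← id_one_iff] at h ⊢
  exact id_of_equiv e 1 h

theorem projective_dL [Module.Finite k B] {J : Mo k A} (hJ : Module.Injective A J) :
    Module.Projective B (dL (flat θ) J) := by
  obtain ⟨p, hp⟩ := exists_free_cover (dL (flat θ) J)
  exact (projective_iff_D_injective θ p hp).mpr (injective_congr (dd θ J) hJ)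

theorem fam : FamStmt.{u} := by
  intro k A _ _ _ _
  -- the left simple modules
  obtain ⟨r, S, hS, hne, hc⟩ := exists_family k A
  obtain ⟨Q, hQ, hfit, hSQ, _⟩ := exists_projectives S hS hc
  -- the right simple modules
  let θ : A ≃ₐ[k] (Aᵐᵒᵖ)ᵐᵒᵖ := AlgEquiv.opOp k A
  have hfin : Module.Finite k Aᵐᵒᵖ := Module.Finite.equiv (MulOpposite.opLinearEquiv k (M := A))
  have hS' : ∀ a, IsSimpleModule Aᵐᵒᵖ (dL (flat θ) (S a)) := fun a => simple_dL (flat θ) (hS a)
  have hc' : ∀ T : Mo k Aᵐᵒᵖ, IsSimpleModule Aᵐᵒᵖ T →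
      ∃ a, Nonempty (T ≃ₗ[Aᵐᵒᵖ] dL (flat θ) (S a)) := by
    intro T hT
    obtain ⟨a, ⟨e⟩⟩ := hc (dL θ T) (simple_dL θ hT)
    obtain ⟨e1⟩ := dd' θ T
    obtain ⟨e2⟩ := dL_congr (flat θ) e
    exact ⟨a, ⟨e1.trans e2⟩⟩
  obtain ⟨Q', hQ', _, _, hdec'⟩ := exists_projectives (fun a => dL (flat θ) (S a)) hS' hc'
  refine ⟨r, S, Q, fun a => dL θ (Q' a), hQ, hfit, fun a => injective_dL θ (hQ' a), hSQ, ?_, ?_⟩
  · intro a b hab f
    obtain ⟨π, hπ⟩ := hSQ a
    refine hom_zero (hQ a) (hfit a) (hS a) (hS b) hπ ?_ f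
    intro he
    exact hab (hne b a he).symm
  · intro J hJ
    obtain ⟨m, σ, ⟨e⟩⟩ := hdec' (dL (flat θ) J) (projective_dL θ hJ)
    obtain ⟨e1⟩ := dL_congr θ e
    obtain ⟨e2⟩ := dL_pi θ (fun i => Q' (σ i))
    exact ⟨m, σ, ⟨((dd θ J).trans e1).trans e2⟩⟩

end Pool.Agent.Lib_helper54.GRS
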