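import Pool.Agent.Lib_helper54.GRS.Fin
import Pool.Agent.Lib_helper54.GRS.Ks3
import Pool.Agent.Lib_helper54.GRS.Defs
import Pool.Agent.Lib_helper30.GSC.BridgeInj

/-!
# The theorem in the language of Mathlib
-/

open CategoryTheory CategoryTheory.Abelian CategoryTheory.Limits Pool.Agent.RigidSyzygy

universe u

set_option linter.unusedSectionVars false

namespace Pool.Agent.Lib_helper54.GRS

variable {k A : Type u} [Field k] [Ring A] [Algebra k A]

section bundle
variable [Module.Finite k A]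

/-- a finitely generated module as a bundled module -/
noncomputable def toMo (k : Type u) {A : Type u} [Field k] [Ring A] [Algebra k A]
    [Module.Finite k A] (M : ModuleCat.{u} A) (h : Module.Finite A M) : Mo k A :=
  let _ : Module k M := Module.compHom M (algebraMap k A)
  have _ : IsScalarTower k A M := IsScalarTower.of_algebraMap_smul fun _ _ => rfl
  have _ : Module.Finite k M := Module.Finite.trans A M
  ⟨M⟩

theorem noeth_ring (k A : Type u) [Field k] [Ring A] [Algebra k A] [Module.Finite k A] :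
    IsNoetherianRing A := isNoetherian_of_tower k inferInstance

theorem isSyz_of (n : ℕ) : ∀ (Y K : ModuleCat.{u} A), IsSyzygy n Y K → Module.Finite A Y →
    ∃ hK : Module.Finite A K, ∀ Y' : Mo k A, Nonempty (Y' ≃ₗ[A] Y) →
      IsSyz n Y' (toMo k K hK) := by
  induction n with
  | zero =>
    rintro Y K ⟨e⟩ hY
    have hK : Module.Finite A K := Module.Finite.equiv e.symm
    refine ⟨hK, fun Y' ⟨e'⟩ => ⟨?_⟩⟩
    exact LinearEquiv.trans (M₂ := Y) e e'.symm
  | succ n ih =>
    rintro Y K ⟨L, P, f, g, hL, hPf, hP, h1, h2, h3⟩ hY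
    obtain ⟨hLf, hL'⟩ := ih Y L hL hY
    have hn : IsNoetherianRing A := noeth_ring k A
    have hK : Module.Finite A K := Module.Finite.of_injective f h1
    refine ⟨hK, fun Y' e' => ?_⟩
    exact ⟨toMo k L hLf, toMo k P hPf, f, g, hL' Y' e', hP, h1, h2, h3⟩

end bundle

theorem indecomposable_of_indec {Q : Mo k A} (h : Indec A Q) :
    Indecomposable (ModuleCat.of A Q) := by
  obtain ⟨⟨x, hx⟩, h⟩ := h
  refine ⟨?_, ?_⟩
  · intro hz
    apply hx
    have h0 : 𝟙 (ModuleCat.of A Q) = 0 := hz.eq_of_src _ _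
    exact congrArg (fun w : ModuleCat.of A Q ⟶ ModuleCat.of A Q => w.hom x) h0
  · intro Y Z φ
    let e : ModuleCat.of A Q ⟶ ModuleCat.of A Q :=
      φ.hom ≫ biprod.fst ≫ biprod.inl ≫ φ.inv
    have he : e ≫ e = e := by
      simp only [e, Category.assoc, Iso.inv_hom_id_assoc, biprod.inl_fst_assoc]
    have he' : e.hom ∘ₗ e.hom = e.hom := by
      have := congrArg (fun w : ModuleCat.of A Q ⟶ ModuleCat.of A Q => w.hom) he
      simpa using this
    rcases h e.hom he' with h0 | h1
    · left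
      have h2 : e = 0 := by
        ext y
        exact congrArg (fun w => w y) h0
      have h3 : (biprod.fst : Y ⊞ Z ⟶ Y) ≫ (biprod.inl : Y ⟶ Y ⊞ Z) = 0 := by
        have h4 : φ.inv ≫ e ≫ φ.hom = 0 := by rw [h2]; simp
        simpa [e] using h4
      rw [IsZero.iff_id_eq_zero]
      have h5 : (biprod.inl : Y ⟶ Y ⊞ Z) ≫ ((biprod.fst : Y ⊞ Z ⟶ Y) ≫
          (biprod.inl : Y ⟶ Y ⊞ Z)) ≫ (biprod.fst : Y ⊞ Z ⟶ Y) = 𝟙 Y := by
        simp
      rw [← h5, h3]
      simp
    · right
      have h2 : e = 𝟙 _ := by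
        ext y
        exact congrArg (fun w => w y) h1
      have h3 : (biprod.fst : Y ⊞ Z ⟶ Y) ≫ (biprod.inl : Y ⟶ Y ⊞ Z) = 𝟙 _ := by
        have h4 : φ.inv ≫ e ≫ φ.hom = 𝟙 _ := by rw [h2]; simp
        simpa [e] using h4
      rw [IsZero.iff_id_eq_zero]
      have h5 : (biprod.inr : Z ⟶ Y ⊞ Z) ≫ ((biprod.fst : Y ⊞ Z ⟶ Y) ≫
          (biprod.inl : Y ⟶ Y ⊞ Z)) ≫ (biprod.snd : Y ⊞ Z ⟶ Z) = 0 := by
        simp
      rw [h3] at h5
      simpa using h5

section
variable [Module.Finite k A]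

/-- finite projective dimension is at most `n` -/
theorem projective_syN_of_pd {n : ℕ} (hA : HasInjectiveDimensionLT (ModuleCat.of A A) (n + 1))
    {Y : Mo k A} {m : ℕ} (hm : HasProjectiveDimensionLT (ModuleCat.of A Y) (m + 1)) :
    Module.Projective A (SyN n Y) := by
  have h1 : Module.Projective A (SyN (n + m) Y) := by
    have hm' : HasProjectiveDimensionLT (ModuleCat.of A Y) (n + m + 1) :=
      hasProjectiveDimensionLT_of_ge _ (m + 1) _ (by omega)
    have h2 : EZ Y (Sy (SyN (n + m) Y)) (0 + 1 + (n + m)) := EZ.of_pd hm' (by omega) _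
    have h3 := EZ.spl (ses_mu (SyN (n + m) Y)) (EZ.syN (n + m) (t := 0) h2)
    exact projective_of_spl_right (ses_mu (SyN (n + m) Y)) h3 (projective_fr _)
  clear hm
  induction m with
  | zero => exact h1
  | succ m ih =>
    apply ih
    have h1' : Module.Projective A (Sy (SyN (n + m) Y)) := h1
    have hid := Pool.Agent.Lib_helper54.GSC.id_of_projective (k := k) hA (Sy (SyN (n + m) Y)) h1'
    have h2 : EZ Y (Sy (SyN (n + m) Y)) (0 + 1 + (n + m)) := EZ.of_id hid (by omega) _
    have h3 := EZ.spl (ses_mu (SyN (n + m) Y)) (EZ.syN (n + m) (t := 0) h2)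
    exact projective_of_spl_right (ses_mu (SyN (n + m) Y)) h3 (projective_fr _)

/-- cosyzygies -/
theorem injective_cosyzygy (n : ℕ) : ∀ (X J : ℕ → Mo k A) (f : ∀ s, X s →ₗ[A] J s)
    (g : ∀ s, J s →ₗ[A] X (s + 1)), (∀ s, SES (f s) (g s)) → (∀ s, Module.Injective A (J s)) →
    HasInjectiveDimensionLT (ModuleCat.of A (X 0)) (n + 1) → Module.Injective A (X n) := by
  induction n with
  | zero =>
    intro X J f g _ _ h
    exact Pool.Agent.Lib_helper54.GSC.id_one_iff.mp h
  | succ n ih =>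
    intro X J f g hs hJ h
    have hI : Injective (ModuleCat.of A (J 0)) :=
      (Module.injective_iff_injective_object A (J 0)).mp (hJ 0)
    have h1 : HasInjectiveDimensionLT (ModuleCat.of A (X 1)) (n + 1) :=
      ((sc_exact (hs 0)).hasInjectiveDimensionLT_X₃_iff n hI).mpr h
    exact ih (fun s => X (s + 1)) (fun s => J (s + 1)) (fun s => f (s + 1)) (fun s => g (s + 1))
      (fun s => hs (s + 1)) (fun s => hJ (s + 1)) h1

/-- from Mathlib's resolutions -/
theorem exists_cor {n : ℕ} (hA : HasInjectiveDimensionLT (ModuleCat.of A A) (n + 1))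
    {Q : Mo k A} (hQ : Module.Projective A Q) (I : InjectiveResolution (ModuleCat.of A Q))
    (hI : IFin I) : ∃ R : Cor n Q,
      (∀ s, s < n → Nonempty (R.T s ≃ₗ[A] iTerm I s)) ∧
      ∀ s, s ≤ n → ∃ (i : R.T s →ₗ[A] iTerm I s) (r : iTerm I s →ₗ[A] R.T s),
        r ∘ₗ i = LinearMap.id := by
  obtain ⟨R0, hR0⟩ := Pool.Agent.GSC.exists_injRes_of (k := k) (M := Q) I hI
  have hfinX : ∀ s, Module.Finite k (R0.X s) := fun s =>
    Module.Finite.of_injective ((R0.f s).restrictScalars k) (R0.inj s)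
  let X : ℕ → Mo k A := fun s => ⟨R0.X s⟩
  let J : ℕ → Mo k A := fun s => ⟨R0.J s⟩
  have hses : ∀ s, SES (X := X s) (Y := J s) (Z := X (s + 1)) (R0.f s) (R0.g s) :=
    fun s => ⟨R0.inj s, R0.exact s, R0.surj s⟩
  have hid := Pool.Agent.Lib_helper54.GSC.id_of_projective (k := k) hA Q hQ
  have hid0 : HasInjectiveDimensionLT (ModuleCat.of A (X 0)) (n + 1) :=
    Pool.Agent.Lib_helper54.GSC.id_of_equiv R0.e.symm (n + 1) hid
  let R : Cor n Q :=
    { X := X, J := J, f := R0.f, g := R0.g, ses := hses, inj := R0.injective, e := R0.e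
      injX := injective_cosyzygy n X J R0.f R0.g hses R0.injective hid0 }
  refine ⟨R, ?_, ?_⟩
  · intro s hs
    rw [R.T_lt hs]
    exact (hR0 s).1
  · intro s hs
    rcases Nat.lt_or_ge s n with h | h
    · rw [R.T_lt h]
      obtain ⟨e⟩ := (hR0 s).1
      exact ⟨e.toLinearMap, e.symm.toLinearMap, LinearEquiv.symm_comp e⟩
    · obtain rfl : s = n := le_antisymm hs h
      rw [R.T_n]
      obtain ⟨e⟩ := (hR0 s).1
      obtain ⟨ρ, hρ⟩ := R.injX.out (R0.f s) (R0.inj s) LinearMap.id
      refine ⟨e.toLinearMap ∘ₗ R0.f s, ρ ∘ₗ e.symm.toLinearMap, ?_⟩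
      ext x
      change ρ (e.symm (e (R0.f s x))) = x
      rw [LinearEquiv.symm_apply_apply]
      exact hρ x

end

/-- The theorem. -/
theorem main (k A : Type u) [Field k] [Ring A] [Algebra k A] [Module.Finite k A] (n : ℕ)
    (hA : HasInjectiveDimensionLT (ModuleCat.of A A) (n + 1))
    (h : ∀ Q : ModuleCat.{u} A, Module.Finite A Q → Projective Q → Indecomposable Q →
      ∃ I : InjectiveResolution Q, IFin I ∧ (Near n I ∨ Far n I)) :
    HasInjectiveDimensionLT (ModuleCat.of Aᵐᵒᵖ A) (n + 1) := by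
  refine id_right (k := k) (fun J hJ => core fam hA ?_ J hJ)
  intro Q hQ hQi
  have hQf : Module.Finite A Q := Module.Finite.of_restrictScalars_finite k A Q
  obtain ⟨I, hIf, hI⟩ := h (ModuleCat.of A Q) hQf ((IsProjective.iff_projective (R := A) Q).mp hQ)
    (indecomposable_of_indec hQi)
  obtain ⟨R, hR1, hR2⟩ := exists_cor hA hQ I hIf
  refine ⟨R, ?_⟩
  intro v d hvd
  rcases hI with ⟨m, hm⟩ | hI
  · -- at most two neighbouring exceptions
    have hpd : ∀ s, s ≤ n → s ≠ m → s ≠ m + 1 → Module.Projective A (SyN n (R.T s)) := by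
      intro s hs h1 h2
      obtain ⟨j, hj⟩ := (projectiveDimension_ne_top_iff _).mp (hm s hs h1 h2)
      obtain ⟨i, r, hr⟩ := hR2 s hs
      have hj' : HasProjectiveDimensionLT (ModuleCat.of A (R.T s)) (j + 1) := by
        have hret : Retract (ModuleCat.of A (R.T s)) (iTerm I s) :=
          { i := ModuleCat.ofHom i
            r := ModuleCat.ofHom r
            retract := by
              ext x
              exact congrArg (fun w => w x) hr }
        exact hret.hasProjectiveDimensionLT (j + 1)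
      exact projective_syN_of_pd hA hj'
    refine ⟨SyN n (R.T v), isSyz_syN n (R.T v), ?_⟩
    by_cases hv : v = m ∨ v = m + 1
    · have h1 := hpd (v + 2 + d) hvd (by omega) (by omega)
      exact EZ.of_pd (pd_of_syN n _ h1) (by omega) _
    · push Not at hv
      have h1 := hpd v (by omega) hv.1 hv.2
      exact EZ.of_id (Pool.Agent.Lib_helper54.GSC.id_of_projective (k := k) hA _ h1) (by omega) _
  · obtain ⟨K, hK, hE⟩ := hI (v + 2 + d) v (by omega) hvd
    obtain ⟨hKf, hK'⟩ := isSyz_of (k := k) n (iTerm I v) K hK (hIf v)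
    refine ⟨toMo k K hKf, hK' (R.T v) (hR1 v (by omega)), ?_⟩
    obtain ⟨i, r, hr⟩ := hR2 (v + 2 + d) hvd
    have h1 : EZ (toMo k (iTerm I (v + 2 + d)) (hIf _)) (toMo k K hKf)
        (n + (v + 2 + d) - v - 1) := hE
    have h2 := EZ.retract_left (X := R.T (v + 2 + d)) h1 i r hr
    rwa [show n + (v + 2 + d) - v - 1 = n + 1 + d by omega] at h2

end Pool.Agent.Lib_helper54.GRS
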