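import Pool.Agent.Lib_helper54.GRS.Add

/-!
# The numerical argument
-/

universe u

set_option linter.unusedSectionVars false

namespace Pool.Agent.Lib_helper54.GRS

variable {k A : Type u} [Field k] [Ring A] [Algebra k A]

theorem spl_iff_section {X Y Z : Mo k A} {f : X →ₗ[A] Y} {g : Y →ₗ[A] Z} (h : SES f g) :
    Spl f ↔ ∃ s : Z →ₗ[A] Y, g ∘ₗ s = LinearMap.id := by
  have h1 := (Function.Exact.split_tfae h.2.1 h.1 h.2.2).out 0 1
  exact h1.symm

theorem spl_of_projective {X Y Z : Mo k A} {f : X →ₗ[A] Y} {g : Y →ₗ[A] Z} (h : SES f g)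
    (hZ : Module.Projective A Z) : Spl f :=
  (spl_iff_section h).mpr (Module.projective_lifting_property g LinearMap.id h.2.2)

theorem projective_of_spl_right {X Y Z : Mo k A} {f : X →ₗ[A] Y} {g : Y →ₗ[A] Z} (h : SES f g)
    (hs : Spl f) (hY : Module.Projective A Y) : Module.Projective A Z := by
  obtain ⟨s, hs⟩ := (spl_iff_section h).mp hs
  exact Module.Projective.of_split s g hs

theorem projective_of_spl_left {X Y : Mo k A} {f : X →ₗ[A] Y}
    (hs : Spl f) (hY : Module.Projective A Y) : Module.Projective A X := by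
  obtain ⟨r, hr⟩ := hs
  exact Module.Projective.of_split f r hr

section
variable [Module.Finite k A]

theorem projective_syN {Q : Mo k A} (hQ : Module.Projective A Q) (j : ℕ) :
    Module.Projective A (SyN j Q) := by
  induction j with
  | zero => exact hQ
  | succ j ih =>
    exact projective_of_spl_left (spl_of_projective (ses_mu (SyN j Q)) ih)
      (projective_fr (SyN j Q))

theorem hd_syN_succ {Q : Mo k A} (hQ : Module.Projective A Q) (j : ℕ) (N : Mo k A) :
    (hd (SyN (j + 1) Q) N : ℤ) + hd (SyN j Q) N =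
      ((Module.finrank k A : ℤ) - 1) ^ j * dm Q * dm N := by
  have h := hd_split (ses_mu (SyN j Q)) (spl_of_projective (ses_mu (SyN j Q))
    (projective_syN hQ j)) N
  rw [hd_fr] at h
  have h' : ((dm (SyN j Q) * dm N : ℕ) : ℤ) =
      ((hd (Sy (SyN j Q)) N + hd (SyN j Q) N : ℕ) : ℤ) := by rw [h]
  push_cast at h'
  rw [dm_syN] at h'
  exact h'.symm

/-- the truncated Euler characteristic -/
noncomputable def chi (n : ℕ) (N Y : Mo k A) : ℤ :=
  (∑ i ∈ Finset.range n, (-1) ^ i * ((Module.finrank k A : ℤ) - 1) ^ i * dm N) * dm Y +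
    (-1) ^ n * hd (SyN n Y) N

theorem chi_projective (n : ℕ) (N : Mo k A) {Q : Mo k A} (hQ : Module.Projective A Q) :
    chi n N Q = hd Q N := by
  induction n with
  | zero =>
    unfold chi
    rw [Finset.sum_range_zero, pow_zero, one_mul, zero_mul, zero_add]
    rfl
  | succ n ih =>
    rw [← ih]
    have h := hd_syN_succ hQ n N
    unfold chi
    rw [Finset.sum_range_succ]
    have h' : (hd (SyN (n + 1) Q) N : ℤ) =
      ((Module.finrank k A : ℤ) - 1) ^ n * dm Q * dm N - hd (SyN n Q) N := by linarith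
    rw [h']
    ring

/-- the dimension of Ext -/
noncomputable def eps (n : ℕ) (N Y : Mo k A) : ℤ :=
  (hd (SyN (n + 1) Y) N + hd (SyN n Y) N) -
    (((Module.finrank k A : ℤ) - 1) ^ n * dm N) * dm Y

theorem eps_projective (n : ℕ) (N : Mo k A) {Q : Mo k A} (hQ : Module.Projective A Q) :
    eps n N Q = 0 := by
  unfold eps
  rw [hd_syN_succ hQ n N]
  ring

theorem projective_of_eps {n : ℕ} {Y : Mo k A} (h : eps n (SyN (n + 1) Y) Y = 0) :
    Module.Projective A (SyN n Y) := by
  have h1 : (hd (Fr (SyN n Y)) (SyN (n + 1) Y) : ℤ) =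
      hd (Sy (SyN n Y)) (SyN (n + 1) Y) + hd (SyN n Y) (SyN (n + 1) Y) := by
    rw [hd_fr]
    push_cast
    rw [dm_syN n Y]
    have h2 : (hd (SyN (n + 1) Y) (SyN (n + 1) Y) : ℤ) + hd (SyN n Y) (SyN (n + 1) Y) -
      (((Module.finrank k A : ℤ) - 1) ^ n * dm (SyN (n + 1) Y)) * dm Y = 0 := h
    change _ = (hd (SyN (n + 1) Y) (SyN (n + 1) Y) : ℤ) + hd (SyN n Y) (SyN (n + 1) Y)
    linarith
  have h3 : hd (Fr (SyN n Y)) (SyN (n + 1) Y) =
      hd (Sy (SyN n Y)) (SyN (n + 1) Y) + hd (SyN n Y) (SyN (n + 1) Y) := by exact_mod_cast h1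
  have h4 := surj_of_hd (ses_mu (SyN n Y)) (SyN (n + 1) Y) h3
  exact projective_of_spl_right (ses_mu (SyN n Y)) (spl_of_surj h4) (projective_fr _)

/-- The numerical theorem. -/
theorem projective_syN_of_split {r : ℕ} (S Q I : Fin r → Mo k A)
    (hQ : ∀ a, Module.Projective A (Q a))
    (hSQ : ∀ a, ∃ f : Q a →ₗ[A] S a, f ≠ 0)
    (hSQ0 : ∀ a b, a ≠ b → ∀ f : Q a →ₗ[A] S b, f = 0)
    {n : ℕ} (R : ∀ a, Cor n (Q a))
    (m : Fin r → ℕ → ℕ) (σ : ∀ a s, Fin (m a s) → Fin r)
    (e : ∀ a s, (R a).T s ≃ₗ[A] pi (fun i => I (σ a s i)))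
    (hs : ∀ a s, s < n → Spl (syMapN n ((R a).f s))) (b : Fin r) :
    Module.Projective A (SyN n (I b)) := by
  classical
  -- additive functions
  have key : ∀ (x y z : ℤ) (N : Mo k A), ∀ a,
      x * dm (Q a) + y * hd (SyN n (Q a)) N + z * hd (SyN (n + 1) (Q a)) N =
        ∑ b, mat n m σ a b *
          (x * dm (I b) + y * hd (SyN n (I b)) N + z * hd (SyN (n + 1) (I b)) N) := by
    intro x y z N a
    have hg : GoodFn (fun Y : Mo k A =>
        x * dm Y + y * hd (SyN n Y) N + z * hd (SyN (n + 1) Y) N) :=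
      ((GoodFn.dm.smul x).add (((GoodFn.hd N).syN n).smul y)).add
        (((GoodFn.hd N).syN (n + 1)).smul z)
    refine mat_apply Q I R m σ e hg ?_ a
    intro a s hsn
    have h1 := dm_ses ((R a).ses s)
    have h2 := hd_split (ses_syMapN n ((R a).ses s)) (hs a s hsn) N
    have h3 := hd_split (ses_syMap (ses_syMapN n ((R a).ses s))) (spl_syMap (hs a s hsn)) N
    change hd (SyN (n + 1) ((R a).J s)) N = hd (SyN (n + 1) ((R a).X s)) N +
      hd (SyN (n + 1) ((R a).X (s + 1))) N at h3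
    simp only [h1, h2, h3]
    push_cast
    ring
  -- the matrix is nonsingular
  have hdet : (mat n m σ).det ≠ 0 := by
    let W : Matrix (Fin r) (Fin r) ℤ := fun b c => chi n (S c) (I b)
    have hW : mat n m σ * W = Matrix.diagonal (fun c => (hd (Q c) (S c) : ℤ)) := by
      ext a c
      rw [Matrix.mul_apply, Matrix.diagonal_apply]
      have h1 := key (∑ i ∈ Finset.range n, (-1) ^ i *
        ((Module.finrank k A : ℤ) - 1) ^ i * dm (S c)) ((-1) ^ n) 0 (S c) a
      simp only [zero_mul, add_zero] at h1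
      have h2 : chi n (S c) (Q a) = ∑ b, mat n m σ a b * W b c := h1
      rw [← h2, chi_projective n (S c) (hQ a)]
      split_ifs with hac
      · rw [hac]
      · have : Subsingleton (Q a →ₗ[A] S c) :=
          ⟨fun f g => by rw [hSQ0 a c hac f, hSQ0 a c hac g]⟩
        have h0 : hd (Q a) (S c) = 0 := Module.finrank_zero_of_subsingleton
        rw [h0]
        rfl
    intro h0
    have h1 : (mat n m σ * W).det = 0 := by rw [Matrix.det_mul, h0, zero_mul]
    rw [hW, Matrix.det_diagonal, Finset.prod_eq_zero_iff] at h1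
    obtain ⟨c, _, hc⟩ := h1
    obtain ⟨f, hf⟩ := hSQ c
    have h2 : hd (Q c) (S c) = 0 := by exact_mod_cast hc
    have h3 : Subsingleton (Q c →ₗ[A] S c) := Module.finrank_zero_iff.mp h2
    exact hf (Subsingleton.elim _ _)
  -- the vector of Ext dimensions vanishes
  apply projective_of_eps
  have hv : (mat n m σ).mulVec (fun b' => eps n (SyN (n + 1) (I b)) (I b')) = 0 := by
    ext a
    have h1 := key (-(((Module.finrank k A : ℤ) - 1) ^ n * dm (SyN (n + 1) (I b)))) 1 1
      (SyN (n + 1) (I b)) a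
    have h2 : eps n (SyN (n + 1) (I b)) (Q a) =
        ∑ b', mat n m σ a b' * eps n (SyN (n + 1) (I b)) (I b') := by
      have h3 : ∀ Y : Mo k A, eps n (SyN (n + 1) (I b)) Y =
          -(((Module.finrank k A : ℤ) - 1) ^ n * dm (SyN (n + 1) (I b))) * dm Y +
            1 * hd (SyN n Y) (SyN (n + 1) (I b)) +
            1 * hd (SyN (n + 1) Y) (SyN (n + 1) (I b)) := by
        intro Y
        unfold eps
        ring
      rw [h3 (Q a)]
      simp only [h3]
      exact h1
    rw [eps_projective n _ (hQ a)] at h2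
    rw [Matrix.mulVec, dotProduct]
    exact h2.symm
  exact congrFun (Matrix.eq_zero_of_mulVec_eq_zero hdet hv) b

end

end Pool.Agent.Lib_helper54.GRS
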