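import Pool.Agent.Lib_helper54.GRS.Main
import Pool.Agent.Lib_helper21.GSC.H1

/-!
# Injective resolutions by finitely generated modules exist
-/

open CategoryTheory CategoryTheory.Abelian CategoryTheory.Limits Pool.Agent.RigidSyzygy

universe u

set_option linter.unusedSectionVars false

namespace Pool.Agent.Lib_helper54.GRS

section general

variable {C : Type*} [Category C] [Abelian C] {Z : C} (J : ℕ → C) (d : ∀ i, J i ⟶ J (i + 1))
  (w : ∀ i, d i ≫ d (i + 1) = 0) (ε : Z ⟶ J 0) (w0 : ε ≫ d 0 = 0)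

theorem of_d' (n : ℕ) : (CochainComplex.of J d w).d n (n + 1) = d n :=
  CochainComplex.of_d J d n

theorem of_exactAt_succ (h : ∀ i, (ShortComplex.mk (d i) (d (i + 1)) (w i)).Exact) (n : ℕ) :
    (CochainComplex.of J d w).ExactAt (n + 1) := by
  rw [HomologicalComplex.exactAt_iff' _ n (n + 1) (n + 1 + 1) (by simp) (by simp)]
  refine (ShortComplex.exact_iff_of_iso ?_).mp (h n)
  refine ShortComplex.isoMk (Iso.refl _) (Iso.refl _) (Iso.refl _) ?_ ?_
  · change 𝟙 (J n) ≫ (CochainComplex.of J d w).d n (n + 1) = d n ≫ 𝟙 (J (n + 1))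
    rw [of_d', Category.id_comp, Category.comp_id]
  · change 𝟙 (J (n + 1)) ≫ (CochainComplex.of J d w).d (n + 1) (n + 1 + 1) =
      d (n + 1) ≫ 𝟙 (J (n + 1 + 1))
    rw [of_d', Category.id_comp, Category.comp_id]

/-- a resolution from an exact sequence -/
noncomputable def resOf (hJ : ∀ i, Injective (J i))
    (h0 : (ShortComplex.mk ε (d 0) w0).Exact) (hε : Mono ε)
    (h : ∀ i, (ShortComplex.mk (d i) (d (i + 1)) (w i)).Exact) : InjectiveResolution Z where
  cocomplex := CochainComplex.of J d w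
  injective n := hJ n
  ι := (CochainComplex.fromSingle₀Equiv _ _).symm ⟨ε, by
    have h1 : (CochainComplex.of J d w).d 0 1 = d 0 := of_d' J d w 0
    rw [h1]
    exact w0⟩
  quasiIso := ⟨fun n => by
    cases n
    · rw [CochainComplex.quasiIsoAt₀_iff, ShortComplex.quasiIso_iff_of_zeros]
      · refine (ShortComplex.exact_and_mono_f_iff_of_iso ?_).2 ⟨h0, by dsimp; infer_instance⟩
        refine ShortComplex.isoMk (Iso.refl _) (Iso.refl _) (Iso.refl _) ?_ ?_
        · change 𝟙 Z ≫ ε = ((CochainComplex.fromSingle₀Equiv (CochainComplex.of J d w) Z).symm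
            ⟨ε, _⟩).f 0 ≫ 𝟙 (J 0)
          rw [Category.id_comp, CochainComplex.fromSingle₀Equiv_symm_apply_f_zero]
          exact (Category.comp_id ε).symm
        · change 𝟙 (J 0) ≫ d 0 = (CochainComplex.of J d w).d 0 (0 + 1) ≫ 𝟙 (J (0 + 1))
          rw [of_d', Category.id_comp, Category.comp_id]
      all_goals rfl
    · rw [quasiIsoAt_iff_exactAt]
      · apply of_exactAt_succ J d w h
      · apply CochainComplex.exactAt_succ_single_obj⟩

end general

section
variable {k A : Type u} [Field k] [Ring A] [Algebra k A] [Module.Finite k A]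

theorem exists_res (k : Type u) {A : Type u} [Field k] [Ring A] [Algebra k A] [Module.Finite k A]
    (Q : ModuleCat.{u} A) (hQ : Module.Finite A Q) : ∃ I : InjectiveResolution Q, IFin I := by
  obtain ⟨X, J, _, _, _, _, _, _, _, _, hfin, f, g, hf, hex, hg, hJ, _, ⟨e⟩⟩ :=
    Pool.Agent.Lib_helper21.GSC.exists_coresolution k A (toMo k Q hQ)
  have e' : X 0 ≃ₗ[A] Q := e
  let d : ∀ i, ModuleCat.of A (J i) ⟶ ModuleCat.of A (J (i + 1)) := fun i =>
    ModuleCat.ofHom (f (i + 1) ∘ₗ g i)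
  have hdd : ∀ i, Function.Exact (f (i + 1) ∘ₗ g i) (f (i + 1 + 1) ∘ₗ g (i + 1)) := by
    intro i x
    constructor
    · intro h
      have h1 : g (i + 1) x = 0 := hf (i + 1 + 1) (by
        rw [map_zero]
        exact h)
      obtain ⟨y, rfl⟩ := (hex (i + 1) x).mp h1
      obtain ⟨z, rfl⟩ := hg i y
      exact ⟨z, rfl⟩
    · rintro ⟨z, rfl⟩
      change f (i + 1 + 1) (g (i + 1) (f (i + 1) (g i z))) = 0
      rw [(hex (i + 1) _).mpr ⟨g i z, rfl⟩, map_zero]
  have w : ∀ i, d i ≫ d (i + 1) = 0 := by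
    intro i
    ext x
    exact ((hdd i) _).mpr ⟨x, rfl⟩
  let ε : Q ⟶ ModuleCat.of A (J 0) := ModuleCat.ofHom (f 0 ∘ₗ e'.symm.toLinearMap)
  have hε : Function.Exact (f 0 ∘ₗ e'.symm.toLinearMap) (f 1 ∘ₗ g 0) := by
    intro x
    constructor
    · intro h
      have h1 : g 0 x = 0 := hf 1 (by
        rw [map_zero]
        exact h)
      obtain ⟨y, rfl⟩ := (hex 0 x).mp h1
      exact ⟨e' y, by
        change f 0 (e'.symm (e' y)) = f 0 y
        rw [LinearEquiv.symm_apply_apply]⟩
    · rintro ⟨z, rfl⟩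
      change f 1 (g 0 (f 0 (e'.symm z))) = 0
      rw [(hex 0 _).mpr ⟨e'.symm z, rfl⟩, map_zero]
  have w0 : ε ≫ d 0 = 0 := by
    ext x
    exact (hε _).mpr ⟨x, rfl⟩
  have hinj : ∀ i, Injective (ModuleCat.of A (J i)) := fun i =>
    (Module.injective_iff_injective_object A (J i)).mp (hJ i)
  have hmono : Mono ε := (ModuleCat.mono_iff_injective ε).mpr
    ((hf 0).comp e'.symm.injective)
  refine ⟨resOf (fun i => ModuleCat.of A (J i)) d w ε w0 hinj ?_ hmono ?_, ?_⟩
  · exact (ShortComplex.ShortExact.moduleCat_exact_iff_function_exact _).2 hε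
  · intro i
    exact (ShortComplex.ShortExact.moduleCat_exact_iff_function_exact _).2 (hdd i)
  · intro i
    change Module.Finite A (J i)
    exact Module.Finite.of_restrictScalars_finite k A (J i)

theorem isSyzygy_syN (n : ℕ) (Y : Mo k A) :
    IsSyzygy n (ModuleCat.of A Y) (ModuleCat.of A (SyN n Y)) := by
  induction n with
  | zero => exact ⟨LinearEquiv.refl A Y⟩
  | succ n ih =>
    have hfin : Module.Finite A (Fr (SyN n Y)) := Module.Finite.of_restrictScalars_finite k A _
    have hs := ses_mu (SyN n Y)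
    exact ⟨ModuleCat.of A (SyN n Y), ModuleCat.of A (Fr (SyN n Y)), inc (SyN n Y), mu (SyN n Y),
      ih, hfin, projective_fr _, hs.1, hs.2.1, hs.2.2⟩

/-- If `id (A_A) ≤ n`, the conditions hold. -/
theorem converse (k A : Type u) [Field k] [Ring A] [Algebra k A] [Module.Finite k A] (n : ℕ)
    (hR : HasInjectiveDimensionLT (ModuleCat.of Aᵐᵒᵖ A) (n + 1)) {Q : ModuleCat.{u} A}
    (I : InjectiveResolution Q) (hI : IFin I) : Near n I ∧ Far n I := by
  have hfin : Module.Finite k Aᵐᵒᵖ := Module.Finite.equiv (MulOpposite.opLinearEquiv k (M := A))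
  let θ : Aᵐᵒᵖ ≃ₐ[k] Aᵐᵒᵖ := AlgEquiv.refl
  have hR' : HasInjectiveDimensionLT (ModuleCat.of Aᵐᵒᵖ Aᵐᵒᵖ) (n + 1) := by
    have e : A ≃ₗ[Aᵐᵒᵖ] Aᵐᵒᵖ :=
      { toFun := MulOpposite.op
        invFun := MulOpposite.unop
        left_inv := fun _ => rfl
        right_inv := fun _ => rfl
        map_add' := fun _ _ => rfl
        map_smul' := fun _ _ => rfl }
    exact Pool.Agent.Lib_helper54.GSC.id_of_equiv e (n + 1) hR
  have hpd : ∀ i, HasProjectiveDimensionLT (iTerm I i) (n + 1) := by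
    intro i
    have hinj : Module.Injective A (iTerm I i) :=
      (Module.injective_iff_injective_object A (iTerm I i)).mpr (I.injective i)
    exact Pool.Agent.Lib_helper54.GSC.pd_of_injective θ hR' (toMo k (iTerm I i) (hI i)) hinj
  refine ⟨⟨0, fun i _ _ _ => (projectiveDimension_ne_top_iff _).mpr ⟨n, hpd i⟩⟩, ?_⟩
  intro u v huv hu
  have hK : IsSyzygy n (iTerm I v) (ModuleCat.of A (SyN n (toMo k (iTerm I v) (hI v)))) :=
    isSyzygy_syN n (toMo k (iTerm I v) (hI v))
  refine ⟨ModuleCat.of A (SyN n (toMo k (iTerm I v) (hI v))), hK, ?_⟩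
  have := hpd u
  exact HasProjectiveDimensionLT.subsingleton (iTerm I u) (n + 1) (n + u - v - 1) (by omega) _

end

end Pool.Agent.Lib_helper54.GRS
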