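import Pool.Agent.Lib_helper54.GRS.Split

/-!
# Schanuel's lemma and independence of the syzygies
-/

universe u

set_option linter.unusedSectionVars false

namespace Pool.Agent.Lib_helper54.GRS

variable {k A : Type u} [Field k] [Ring A] [Algebra k A]

/-- product of two modules -/
def pr (X Y : Mo k A) : Mo k A := ⟨X × Y⟩

/-- the pull back -/
def pb {P P' L : Mo k A} (g : P →ₗ[A] L) (g' : P' →ₗ[A] L) : Submodule A (P × P') :=
  LinearMap.ker (g ∘ₗ LinearMap.fst A P P' - g' ∘ₗ LinearMap.snd A P P')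

theorem mem_pb {P P' L : Mo k A} (g : P →ₗ[A] L) (g' : P' →ₗ[A] L) (x : P × P') :
    x ∈ pb g g' ↔ g x.1 = g' x.2 := by
  rw [pb, LinearMap.mem_ker, LinearMap.sub_apply, sub_eq_zero]
  rfl

theorem pb_equiv {K P P' L : Mo k A} {f : K →ₗ[A] P} {g : P →ₗ[A] L} (h : SES f g)
    (g' : P' →ₗ[A] L) (hP' : Module.Projective A P') :
    Nonempty ((pr K P') ≃ₗ[A] pb g g') := by
  obtain ⟨β, hβ⟩ := Module.projective_lifting_property g g' h.2.2
  have hβ' : ∀ y, g (β y) = g' y := fun y => congrArg (fun z => z y) hβ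
  have hgf : ∀ x, g (f x) = 0 := fun x => (h.2.1 _).mpr ⟨x, rfl⟩
  let Φ : (K × P') →ₗ[A] pb g g' :=
    LinearMap.codRestrict (pb g g')
      ((f ∘ₗ LinearMap.fst A K P' + β ∘ₗ LinearMap.snd A K P').prod (LinearMap.snd A K P'))
      (fun x => by
        rw [mem_pb]
        change g (f x.1 + β x.2) = g' x.2
        rw [map_add, hgf, hβ', zero_add])
  refine ⟨LinearEquiv.ofBijective Φ ⟨?_, ?_⟩⟩
  · rw [← LinearMap.ker_eq_bot, LinearMap.ker_eq_bot']
    intro x hx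
    have h1 : (f x.1 + β x.2, x.2) = ((0 : P), (0 : P')) := congrArg Subtype.val hx
    have h2 : x.2 = 0 := (Prod.ext_iff.mp h1).2
    have h3 : f x.1 + β x.2 = 0 := (Prod.ext_iff.mp h1).1
    rw [h2, map_zero, add_zero] at h3
    have h4 : x.1 = 0 := h.1 (by rw [h3, map_zero])
    exact Prod.ext h4 h2
  · rintro ⟨⟨p, p'⟩, hp⟩
    rw [mem_pb] at hp
    have h1 : g (p - β p') = 0 := by rw [map_sub, hβ', sub_eq_zero]; exact hp
    obtain ⟨x, hx⟩ := (h.2.1 _).mp h1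
    refine ⟨(x, p'), ?_⟩
    apply Subtype.ext
    change (f x + β p', p') = (p, p')
    rw [hx, sub_add_cancel]

theorem pb_swap {P P' L : Mo k A} (g : P →ₗ[A] L) (g' : P' →ₗ[A] L) :
    Nonempty (pb g g' ≃ₗ[A] pb g' g) := by
  let Φ : pb g g' →ₗ[A] pb g' g :=
    LinearMap.restrict ((LinearMap.snd A P P').prod (LinearMap.fst A P P'))
      (fun x hx => by
        rw [mem_pb] at hx ⊢
        exact hx.symm)
  refine ⟨LinearEquiv.ofBijective Φ ⟨?_, ?_⟩⟩
  · intro x y hxy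
    have h1 : ((x : P × P').2, (x : P × P').1) = ((y : P × P').2, (y : P × P').1) :=
      congrArg Subtype.val hxy
    apply Subtype.ext
    exact Prod.ext (Prod.ext_iff.mp h1).2 (Prod.ext_iff.mp h1).1
  · rintro ⟨⟨p', p⟩, hp⟩
    rw [mem_pb] at hp
    exact ⟨⟨(p, p'), by rw [mem_pb]; exact hp.symm⟩, rfl⟩

/-- Schanuel's lemma -/
theorem schanuel {K P K' P' L : Mo k A} {f : K →ₗ[A] P} {g : P →ₗ[A] L} (h : SES f g)
    {f' : K' →ₗ[A] P'} {g' : P' →ₗ[A] L} (h' : SES f' g')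
    (hP : Module.Projective A P) (hP' : Module.Projective A P') :
    Nonempty ((pr K P') ≃ₗ[A] (pr K' P)) := by
  obtain ⟨e1⟩ := pb_equiv h g' hP'
  obtain ⟨e2⟩ := pb_equiv h' g hP
  obtain ⟨e3⟩ := pb_swap g g'
  exact ⟨(e1.trans e3).trans e2.symm⟩

/-- stable equivalence -/
def StEq (X Y : Mo k A) : Prop :=
  ∃ P P' : Mo k A, Module.Projective A P ∧ Module.Projective A P' ∧
    Nonempty ((pr X P) ≃ₗ[A] (pr Y P'))

theorem StEq.symm {X Y : Mo k A} (h : StEq X Y) : StEq Y X := by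
  obtain ⟨P, P', h1, h2, ⟨e⟩⟩ := h
  exact ⟨P', P, h2, h1, ⟨e.symm⟩⟩

theorem ses_pr_right {X Y Z : Mo k A} {f : X →ₗ[A] Y} {g : Y →ₗ[A] Z} (h : SES f g)
    (W : Mo k A) :
    SES (Y := pr Y W) (Z := pr Z W) (LinearMap.inl A Y W ∘ₗ f) (g.prodMap LinearMap.id) := by
  refine ⟨LinearMap.inl_injective.comp h.1, ?_, ?_⟩
  · rintro ⟨y, w⟩
    constructor
    · intro hy
      have h1 : (g y, w) = ((0 : Z), (0 : W)) := hy
      have h2 : w = 0 := (Prod.ext_iff.mp h1).2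
      obtain ⟨x, hx⟩ := (h.2.1 y).mp (Prod.ext_iff.mp h1).1
      refine ⟨x, ?_⟩
      change (f x, (0 : W)) = (y, w)
      rw [hx, h2]
    · rintro ⟨x, hx⟩
      have h1 : (f x, (0 : W)) = (y, w) := hx
      have h2 : f x = y := (Prod.ext_iff.mp h1).1
      have h3 : (0 : W) = w := (Prod.ext_iff.mp h1).2
      change (g y, w) = ((0 : Z), (0 : W))
      rw [← h2, ← h3, (h.2.1 (f x)).mpr ⟨x, rfl⟩]
  · rintro ⟨z, w⟩
    obtain ⟨y, rfl⟩ := h.2.2 z
    exact ⟨(y, w), rfl⟩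

theorem ses_trans_equiv {X Y Z Z' : Mo k A} {f : X →ₗ[A] Y} {g : Y →ₗ[A] Z} (h : SES f g)
    (e : Z ≃ₗ[A] Z') : SES f (e.toLinearMap ∘ₗ g) := by
  refine ⟨h.1, ?_, e.surjective.comp h.2.2⟩
  intro y
  rw [← h.2.1 y]
  exact e.map_eq_zero_iff

theorem projective_pr {X Y : Mo k A} (hX : Module.Projective A X)
    (hY : Module.Projective A Y) : Module.Projective A (pr X Y) :=
  inferInstanceAs (Module.Projective A (X × Y))

/-- syzygies of stably equivalent modules are stably equivalent -/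
theorem StEq.syz {L L' K P K' P' : Mo k A} (h : StEq L L') {f : K →ₗ[A] P} {g : P →ₗ[A] L}
    (hf : SES f g) {f' : K' →ₗ[A] P'} {g' : P' →ₗ[A] L'} (hf' : SES f' g')
    (hP : Module.Projective A P) (hP' : Module.Projective A P') : StEq K K' := by
  obtain ⟨S, S', hS, hS', ⟨e⟩⟩ := h
  have h1 := ses_trans_equiv (ses_pr_right hf S) e
  have h2 := ses_pr_right hf' S'
  obtain ⟨e'⟩ := schanuel h1 h2 (projective_pr hP hS) (projective_pr hP' hS')
  exact ⟨pr P' S', pr P S, projective_pr hP' hS', projective_pr hP hS, ⟨e'⟩⟩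

theorem StEq.of_equiv {X Y : Mo k A} (e : X ≃ₗ[A] Y) : StEq X Y := by
  have h0 : Module.Projective A PUnit.{u + 1} := inferInstance
  refine ⟨⟨PUnit⟩, ⟨PUnit⟩, h0, h0, ⟨?_⟩⟩
  exact LinearEquiv.prodCongr e (LinearEquiv.refl A PUnit.{u + 1})

/-- `K` is an `n`-th syzygy of `Y` -/
def IsSyz : ℕ → Mo k A → Mo k A → Prop
  | 0, Y, K => Nonempty (K ≃ₗ[A] Y)
  | n + 1, Y, K => ∃ (L P : Mo k A) (f : K →ₗ[A] P) (g : P →ₗ[A] L), IsSyz n Y L ∧
      Module.Projective A P ∧ SES f g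

section
variable [Module.Finite k A]

theorem IsSyz.stEq (n : ℕ) : ∀ {Y K : Mo k A}, IsSyz n Y K → StEq K (SyN n Y) := by
  induction n with
  | zero =>
    rintro Y K ⟨e⟩
    exact StEq.of_equiv e
  | succ n ih =>
    rintro Y K ⟨L, P, f, g, hL, hP, hs⟩
    exact (ih hL).syz hs (ses_mu (SyN n Y)) hP (projective_fr (SyN n Y))

theorem isSyz_syN (n : ℕ) (Y : Mo k A) : IsSyz n Y (SyN n Y) := by
  induction n with
  | zero => exact ⟨LinearEquiv.refl A Y⟩
  | succ n ih =>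
    exact ⟨SyN n Y, Fr (SyN n Y), inc (SyN n Y), mu (SyN n Y), ih, projective_fr _, ses_mu _⟩

theorem EZ.stEq {n t : ℕ} (hA : CategoryTheory.HasInjectiveDimensionLT (ModuleCat.of A A) (n + 1))
    {X Y W : Mo k A} (h : StEq X Y) (ht : n + 1 ≤ t) (hX : EZ W X t) : EZ W Y t := by
  obtain ⟨P, P', hP, hP', ⟨e⟩⟩ := h
  have h1 : EZ W P t :=
    EZ.of_id (Pool.Agent.Lib_helper54.GSC.id_of_projective (k := k) hA P hP) ht W
  have h2 : EZ W (pr X P) t := EZ.comid (ses_prod X P) hX h1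
  have h3 : EZ W (pr Y P') t := h2.congr_right e
  exact h3.retract (LinearMap.inl A Y P') (LinearMap.fst A Y P') (LinearMap.fst_comp_inl A Y P')

/-- stably equivalent to projective is projective -/
theorem StEq.projective {X Y : Mo k A} (h : StEq X Y) (hX : Module.Projective A X) :
    Module.Projective A Y := by
  obtain ⟨P, P', hP, hP', ⟨e⟩⟩ := h
  have h0 := projective_pr hX hP
  have h1 : Module.Projective A (Y × P') := Module.Projective.of_equiv e
  exact Module.Projective.of_split (LinearMap.inl A Y P') (LinearMap.fst A Y P')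
    (LinearMap.fst_comp_inl A Y P')

end

end Pool.Agent.Lib_helper54.GRS
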