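import Pool.Agent.Lib_helper54.GRS.EZ

/-!
# The sequences of n-th syzygies split
-/

open CategoryTheory CategoryTheory.Abelian

universe u

set_option linter.unusedSectionVars false

namespace Pool.Agent.Lib_helper54.GRS

variable {k A : Type u} [Field k] [Ring A] [Algebra k A] [Module.Finite k A]

/-- vanishing along a coresolution -/
theorem Cor.ezX {n : ℕ} {Q : Mo k A} (R : Cor n Q) (L : Mo k A) (v : ℕ)
    (h : ∀ d, v + d ≤ n → EZ (R.T (v + d)) L (n + 1 + d)) :
    ∀ d, v + d ≤ n → EZ (R.X (v + d)) L (n + 1 + d) := by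
  -- downward induction
  have key : ∀ c d, v + d + c = n → EZ (R.X (v + d)) L (n + 1 + d) := by
    intro c
    induction c with
    | zero =>
      intro d hd
      have h1 := h d (by omega)
      have h2 : v + d = n := by omega
      rw [h2, R.T_n] at h1
      rwa [h2]
    | succ c ih =>
      intro d hd
      have h1 := h d (by omega)
      rw [R.T_lt (by omega)] at h1
      exact EZ.left (R.ses (v + d)) h1 (ih (d + 1) (by omega))
  intro d hd
  exact key (n - (v + d)) d (by omega)

/-- the sequences of `n`-th syzygies split -/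
theorem Cor.spl {n : ℕ} (hA : HasInjectiveDimensionLT (ModuleCat.of A A) (n + 1))
    {Q : Mo k A} (hQ : Module.Projective A Q) (R : Cor n Q)
    (h : ∀ v d, v + 2 + d ≤ n → EZ (R.T (v + 2 + d)) (SyN n (R.T v)) (n + 1 + d)) (s : ℕ)
    (hsn : s < n) : Spl (syMapN n (R.f s)) := by
  induction s with
  | zero =>
    apply EZ.spl (ses_syMapN n (R.ses 0))
    have hX : Module.Projective A (R.X 0) := Module.Projective.of_equiv R.e.symm
    have hK : Module.Projective A (SyN n (R.X 0)) := projective_syN hX n
    have hid := Pool.Agent.Lib_helper54.GSC.id_of_projective (k := k) hA (SyN n (R.X 0)) hK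
    exact EZ.syN n (t := 0) (EZ.of_id hid (by omega) (R.X 1))
  | succ s ih =>
    apply EZ.spl (ses_syMapN n (R.ses (s + 1)))
    -- the syzygy of `X (s+1)` is a summand of the syzygy of `J s`
    obtain ⟨t, ht⟩ := (spl_iff_section (ses_syMapN n (R.ses s))).mp (ih (by omega))
    have h1 : EZ (R.X (s + 2)) (SyN n (R.T s)) (n + 1) :=
      R.ezX (SyN n (R.T s)) (s + 2) (fun d hd => h s d hd) 0 (by omega)
    rw [R.T_lt (by omega)] at h1
    have h2 : EZ (R.X (s + 2)) (SyN n (R.X (s + 1))) (n + 1) :=
      h1.retract t (syMapN n (R.g s)) ht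
    refine EZ.syN n (t := 0) ?_
    rwa [show 0 + 1 + n = n + 1 by omega]

end Pool.Agent.Lib_helper54.GRS
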