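import Pool.Agent.Lib_helper54.GRS.Base

/-!
# The canonical syzygy functor
-/

open TensorProduct

universe u

set_option linter.unusedSectionVars false

namespace Pool.Agent.Lib_helper54.GRS

variable {k A : Type u} [Field k] [Ring A] [Algebra k A]

/-- short exact sequences -/
def SES {X Y Z : Mo k A} (f : X →ₗ[A] Y) (g : Y →ₗ[A] Z) : Prop :=
  Function.Injective f ∧ Function.Exact f g ∧ Function.Surjective g

/-- the first map splits -/
def Spl {X Y : Mo k A} (f : X →ₗ[A] Y) : Prop := ∃ r : Y →ₗ[A] X, r ∘ₗ f = LinearMap.id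

section
variable [Module.Finite k A]

/-- the free cover `A ⊗ Y` -/
noncomputable def Fr (Y : Mo k A) : Mo k A := ⟨A ⊗[k] Y⟩

/-- the cover -/
noncomputable def mu (Y : Mo k A) : Fr Y →ₗ[A] Y :=
  TensorProduct.AlgebraTensorModule.lift
    (LinearMap.toSpanSingleton A (Y →ₗ[k] Y) LinearMap.id)

theorem mu_tmul (Y : Mo k A) (a : A) (y : Y) : mu Y (a ⊗ₜ[k] y : A ⊗[k] Y) = a • y := rfl

theorem mu_surjective (Y : Mo k A) : Function.Surjective (mu Y) := fun y =>
  ⟨(1 ⊗ₜ[k] y : A ⊗[k] Y), by rw [mu_tmul, one_smul]⟩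

/-- functoriality of the free cover -/
noncomputable def frMap {X Y : Mo k A} (f : X →ₗ[A] Y) : Fr X →ₗ[A] Fr Y :=
  LinearMap.baseChange A (f.restrictScalars k)

theorem frMap_tmul {X Y : Mo k A} (f : X →ₗ[A] Y) (a : A) (x : X) :
    frMap f (a ⊗ₜ[k] x : A ⊗[k] X) = (a ⊗ₜ[k] f x : A ⊗[k] Y) := rfl

theorem mu_frMap {X Y : Mo k A} (f : X →ₗ[A] Y) (z : Fr X) : mu Y (frMap f z) = f (mu X z) := by
  have : mu Y ∘ₗ frMap f = f ∘ₗ mu X := by
    apply TensorProduct.AlgebraTensorModule.ext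
    intro a x
    change mu Y (frMap f (a ⊗ₜ[k] x : A ⊗[k] X)) = f (mu X (a ⊗ₜ[k] x : A ⊗[k] X))
    rw [frMap_tmul, mu_tmul, mu_tmul, f.map_smul]
  exact congrArg (fun h => h z) this

/-- the syzygy -/
noncomputable def Sy (Y : Mo k A) : Mo k A where
  C := LinearMap.ker (mu Y)
  tower := inferInstance
  fin := Module.Finite.of_injective ((LinearMap.ker (mu Y)).subtype.restrictScalars k)
    (LinearMap.ker (mu Y)).injective_subtype

/-- the inclusion of the syzygy -/
noncomputable def inc (Y : Mo k A) : Sy Y →ₗ[A] Fr Y := (LinearMap.ker (mu Y)).subtype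

theorem inc_injective (Y : Mo k A) : Function.Injective (inc Y) :=
  (LinearMap.ker (mu Y)).injective_subtype

theorem ses_mu (Y : Mo k A) : SES (inc Y) (mu Y) := by
  refine ⟨inc_injective Y, ?_, mu_surjective Y⟩
  intro z
  constructor
  · intro h
    exact ⟨(⟨z, h⟩ : LinearMap.ker (mu Y)), rfl⟩
  · rintro ⟨w, rfl⟩
    exact (show LinearMap.ker (mu Y) from w).2

/-- functoriality of the syzygy -/
noncomputable def syMap {X Y : Mo k A} (f : X →ₗ[A] Y) : Sy X →ₗ[A] Sy Y :=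
  LinearMap.restrict (frMap f) (fun z hz => by
    rw [LinearMap.mem_ker] at hz ⊢
    rw [mu_frMap, hz, map_zero])

theorem inc_syMap {X Y : Mo k A} (f : X →ₗ[A] Y) (z : Sy X) :
    inc Y (syMap f z) = frMap f (inc X z) := rfl

theorem frMap_comp {X Y Z : Mo k A} (f : X →ₗ[A] Y) (g : Y →ₗ[A] Z) :
    frMap (g ∘ₗ f) = frMap g ∘ₗ frMap f := by
  apply TensorProduct.AlgebraTensorModule.ext
  intro a x
  rfl

theorem frMap_id (X : Mo k A) : frMap (LinearMap.id : X →ₗ[A] X) = LinearMap.id := by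
  apply TensorProduct.AlgebraTensorModule.ext
  intro a x
  rfl

theorem syMap_comp {X Y Z : Mo k A} (f : X →ₗ[A] Y) (g : Y →ₗ[A] Z) :
    syMap (g ∘ₗ f) = syMap g ∘ₗ syMap f := by
  ext z
  apply inc_injective
  rw [inc_syMap, frMap_comp]
  rfl

theorem syMap_id (X : Mo k A) : syMap (LinearMap.id : X →ₗ[A] X) = LinearMap.id := by
  ext z
  apply inc_injective
  rw [inc_syMap, frMap_id]
  rfl

theorem frMap_injective {X Y : Mo k A} {f : X →ₗ[A] Y} (hf : Function.Injective f) :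
    Function.Injective (frMap f) :=
  Module.Flat.lTensor_preserves_injective_linearMap (M := A) (f.restrictScalars k) hf

theorem frMap_surjective {X Y : Mo k A} {f : X →ₗ[A] Y} (hf : Function.Surjective f) :
    Function.Surjective (frMap f) :=
  LinearMap.lTensor_surjective A (g := f.restrictScalars k) hf

theorem frMap_exact {X Y Z : Mo k A} {f : X →ₗ[A] Y} {g : Y →ₗ[A] Z} (h : SES f g) :
    Function.Exact (frMap f) (frMap g) :=
  lTensor_exact A (f := f.restrictScalars k) (g := g.restrictScalars k) h.2.1 h.2.2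

theorem ses_frMap {X Y Z : Mo k A} {f : X →ₗ[A] Y} {g : Y →ₗ[A] Z} (h : SES f g) :
    SES (frMap f) (frMap g) :=
  ⟨frMap_injective h.1, frMap_exact h, frMap_surjective h.2.2⟩

theorem ses_syMap {X Y Z : Mo k A} {f : X →ₗ[A] Y} {g : Y →ₗ[A] Z} (h : SES f g) :
    SES (syMap f) (syMap g) := by
  obtain ⟨h1, h2, h3⟩ := ses_frMap h
  refine ⟨?_, ?_, ?_⟩
  · intro z w hzw
    apply inc_injective
    apply h1
    rw [← inc_syMap, ← inc_syMap, hzw]
  · intro z
    constructor
    · intro hz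
      have hz' : frMap g (inc Y z) = 0 := by rw [← inc_syMap, hz, map_zero]
      obtain ⟨w, hw⟩ := (h2 _).mp hz'
      have hw0 : mu X w = 0 := by
        apply h.1
        rw [← mu_frMap, hw, map_zero]
        exact ((ses_mu Y).2.1 _).mpr ⟨z, rfl⟩
      obtain ⟨v, rfl⟩ := ((ses_mu X).2.1 w).mp hw0
      refine ⟨v, ?_⟩
      apply inc_injective
      rw [inc_syMap, hw]
    · rintro ⟨w, rfl⟩
      have : syMap g ∘ₗ syMap f = 0 := by
        rw [← syMap_comp, h.2.1.linearMap_comp_eq_zero]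
        ext z
        apply inc_injective
        rw [inc_syMap]
        have h0 : frMap (0 : X →ₗ[A] Z) = 0 := by
          apply TensorProduct.AlgebraTensorModule.ext
          intro a x
          exact TensorProduct.tmul_zero _ a
        rw [h0]
        rfl
      exact congrArg (fun h => h w) this
  · intro z
    obtain ⟨w, hw⟩ := h3 (inc Z z)
    have hz0 : mu Z (inc Z z) = 0 := ((ses_mu Z).2.1 _).mpr ⟨z, rfl⟩
    have hg : g (mu Y w) = 0 := by rw [← mu_frMap, hw, hz0]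
    obtain ⟨x, hx⟩ := (h.2.1 _).mp hg
    let w' : Fr Y := w - frMap f (1 ⊗ₜ[k] x : A ⊗[k] X)
    have hw'0 : mu Y w' = 0 := by
      change mu Y (w - frMap f (1 ⊗ₜ[k] x : A ⊗[k] X)) = 0
      rw [map_sub, mu_frMap, mu_tmul, one_smul, hx, sub_self]
    obtain ⟨v, hv⟩ := ((ses_mu Y).2.1 w').mp hw'0
    refine ⟨v, ?_⟩
    apply inc_injective
    rw [inc_syMap, hv]
    change frMap g (w - frMap f (1 ⊗ₜ[k] x : A ⊗[k] X)) = inc Z z
    have hgf : frMap g (frMap f (1 ⊗ₜ[k] x : A ⊗[k] X)) = 0 := (h2 _).mpr ⟨_, rfl⟩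
    rw [map_sub, hw, hgf, sub_zero]

theorem spl_syMap {X Y : Mo k A} {f : X →ₗ[A] Y} (h : Spl f) : Spl (syMap f) := by
  obtain ⟨r, hr⟩ := h
  exact ⟨syMap r, by rw [← syMap_comp, hr, syMap_id]⟩

/-- iterated syzygies -/
noncomputable def SyN : ℕ → Mo k A → Mo k A
  | 0, Y => Y
  | j + 1, Y => Sy (SyN j Y)

/-- functoriality of iterated syzygies -/
noncomputable def syMapN : (j : ℕ) → {X Y : Mo k A} → (X →ₗ[A] Y) → (SyN j X →ₗ[A] SyN j Y)
  | 0, _, _, f => f
  | j + 1, _, _, f => syMap (syMapN j f)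

theorem ses_syMapN (j : ℕ) {X Y Z : Mo k A} {f : X →ₗ[A] Y} {g : Y →ₗ[A] Z} (h : SES f g) :
    SES (syMapN j f) (syMapN j g) := by
  induction j with
  | zero => exact h
  | succ j ih => exact ses_syMap ih

theorem syMapN_comp (j : ℕ) {X Y Z : Mo k A} (f : X →ₗ[A] Y) (g : Y →ₗ[A] Z) :
    syMapN j (g ∘ₗ f) = syMapN j g ∘ₗ syMapN j f := by
  induction j with
  | zero => rfl
  | succ j ih =>
    change syMap (syMapN j (g ∘ₗ f)) = syMap (syMapN j g) ∘ₗ syMap (syMapN j f)
    rw [ih, syMap_comp]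

theorem syMapN_id (j : ℕ) (X : Mo k A) :
    syMapN j (LinearMap.id : X →ₗ[A] X) = LinearMap.id := by
  induction j with
  | zero => rfl
  | succ j ih =>
    change syMap (syMapN j (LinearMap.id : X →ₗ[A] X)) = LinearMap.id
    rw [ih, syMap_id]

theorem spl_syMapN (j : ℕ) {X Y : Mo k A} {f : X →ₗ[A] Y} (h : Spl f) : Spl (syMapN j f) := by
  obtain ⟨r, hr⟩ := h
  exact ⟨syMapN j r, by rw [← syMapN_comp, hr, syMapN_id]⟩

/-- iterated syzygies of isomorphic modules -/
noncomputable def syEquiv (j : ℕ) {X Y : Mo k A} (e : X ≃ₗ[A] Y) : SyN j X ≃ₗ[A] SyN j Y :=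
  LinearEquiv.ofLinearMap (syMapN j e.toLinearMap) (syMapN j e.symm.toLinearMap)
    (by rw [← syMapN_comp, LinearEquiv.comp_symm, syMapN_id])
    (by rw [← syMapN_comp, LinearEquiv.symm_comp, syMapN_id])

theorem projective_fr (Y : Mo k A) : Module.Projective A (Fr Y) := by
  exact Module.Projective.of_basis (P := A ⊗[k] Y) ((Module.finBasis k Y).baseChange A)

end

end Pool.Agent.Lib_helper54.GRS
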